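import Pool.Agent.Helper59K9.St.Main

set_option autoImplicit false
set_option maxHeartbeats 4000000

namespace Pool.Agent.Helper59K9.St
open Finset
open Pool.Agent.H895R3.NK (ev_log')
open Pool.Agent.R60.Steiner (IsSteiner DivCond NoCarry Red divCond_iff_red noCarry_of_red
  divCond_of_isSteiner)

/-- the consequences of (D) for one and two points -/
lemma dvd_one {a b r : ℕ} (h : Red a b r) (hr : 1 ≤ r) : a + 1 ∣ b := by
  have := h 1 hr
  simpa using this

lemma dvd_two {a s r : ℕ} (h : Red a ((a + 1) * s) r) (hr : 2 ≤ r) : a + 2 ∣ s * (s + 1) := by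
  rcases Nat.eq_zero_or_pos s with hs | hs
  · subst hs; simp
  have h2 := h 2 hr
  rw [Nat.choose_two_right, Nat.choose_two_right] at h2
  have e1 : (a + 2) * (a + 2 - 1) / 2 * 2 = (a + 2) * (a + 1) := by
    rw [Nat.div_mul_cancel]
    · rfl
    · have := Nat.even_mul_succ_self (a + 1)
      rw [mul_comm] at this
      exact this.two_dvd
  have e2 : (a + 1) * s * ((a + 1) * s - 1) / 2 * 2 = (a + 1) * s * ((a + 1) * s - 1) := by
    rw [Nat.div_mul_cancel]
    have h1 : 1 ≤ (a + 1) * s := Nat.mul_pos (by omega) hs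
    obtain ⟨k, hk⟩ : ∃ k, (a + 1) * s = k + 1 := ⟨(a + 1) * s - 1, by omega⟩
    rw [hk]
    have := Nat.even_mul_succ_self k
    rw [mul_comm] at this
    exact this.two_dvd
  have h3 := Nat.mul_dvd_mul_right h2 2
  rw [e1, e2] at h3
  have h4 : (a + 1) * (a + 2) ∣ (a + 1) * (s * ((a + 1) * s - 1)) := by
    convert h3 using 1 <;> ring
  have h5 : a + 2 ∣ s * ((a + 1) * s - 1) := Nat.dvd_of_mul_dvd_mul_left (by omega) h4
  have h6 : s * ((a + 1) * s - 1) + s * (s + 1) = (a + 2) * (s * s) := by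
    have h1 : 1 ≤ (a + 1) * s := Nat.mul_pos (by omega) hs
    obtain ⟨k, hk⟩ : ∃ k, (a + 1) * s = k + 1 := ⟨(a + 1) * s - 1, by omega⟩
    rw [hk]
    have : (a + 2) * (s * s) = s * ((a + 1) * s) + s * s := by ring
    rw [this, hk, Nat.add_sub_cancel]
    ring
  have h7 : a + 2 ∣ s * ((a + 1) * s - 1) + s * (s + 1) := by rw [h6]; exact dvd_mul_right _ _
  exact (Nat.dvd_add_right h5).1 h7

lemma three_le {n q r : ℕ} (hr : 2 ≤ r) (hrq : r < q) (hqn : q < n) (h : DivCond n q r) :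
    3 * (q - r) ≤ n - r := by
  have hR := (divCond_iff_red hrq.le hqn.le).1 h
  obtain ⟨s, hs⟩ := dvd_one hR (by omega)
  rw [hs] at hR
  have h2 := dvd_two hR hr
  have hs0 : s ≠ 0 := by rintro rfl; omega
  have hs1 : s ≠ 1 := by
    rintro rfl
    have := Nat.le_of_dvd (by norm_num) h2
    omega
  have : (q - r + 1) * 2 ≤ (q - r + 1) * s := Nat.mul_le_mul_left _ (by omega)
  omega

/-- The arithmetical theorem, with (D) only. -/
theorem arith' (C : ℕ) : ∃ K : ℕ, ∀ n q r : ℕ, r ≤ q → q < n → K ≤ min r (q - r) →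
    DivCond n q r → min r (q - r) ^ C < n := by
  obtain ⟨N₀, hN₀⟩ := core (4 * C)
  obtain ⟨N₁, hN₁⟩ := ev_log' 1 one_pos 14 0
  refine ⟨(N₀ + N₁ + 3) ^ 2, fun n q r hrq hqn hK hD => ?_⟩
  by_contra hcon
  rw [not_lt] at hcon
  set μ : ℕ := min r (q - r) with hμ
  have hμr : μ ≤ r := min_le_left _ _
  have hμa : μ ≤ q - r := min_le_right _ _
  set N : ℕ := Nat.sqrt μ with hN
  have hNb : N₀ + N₁ + 3 ≤ N := Nat.le_sqrt'.2 hK
  have hN1 : N ^ 2 ≤ μ := Nat.sqrt_le' μ
  have hN2 : μ < (N + 1) ^ 2 := Nat.lt_succ_sqrt' μ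
  have hN3 : 3 * N ≤ N ^ 2 := by
    rw [pow_two]; exact Nat.mul_le_mul_right _ (by omega)
  obtain ⟨-, -, hl1, -, hlog⟩ := hN₁ N (by omega)
  rw [Real.rpow_one] at hlog
  have haN : (N : ℝ) * (Real.log N) ^ 14 ≤ ((q - r : ℕ) : ℝ) := by
    calc (N : ℝ) * (Real.log N) ^ 14 ≤ N * N := by gcongr
      _ = ((N ^ 2 : ℕ) : ℝ) := by push_cast; ring
      _ ≤ _ := by exact_mod_cast hN1.trans hμa
  have hm3 : 3 * (q - r) ≤ n - r := three_le (by omega) (by omega) hqn hD
  have hmd : n - r ≤ N ^ (4 * C) := by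
    calc n - r ≤ n := Nat.sub_le n r
      _ ≤ μ ^ C := hcon
      _ ≤ (N ^ 4) ^ C := by
          apply Nat.pow_le_pow_left
          refine hN2.le.trans ?_
          have h1 : N + 1 ≤ N ^ 2 := by omega
          calc (N + 1) ^ 2 ≤ (N ^ 2) ^ 2 := Nat.pow_le_pow_left h1 2
            _ = N ^ 4 := by ring
      _ = N ^ (4 * C) := (pow_mul N 4 C).symm
  exact hN₀ N (by omega) (q - r) (n - r) haN hm3 hmd fun p hp _ hp2 =>
    residue_le hrq hqn.le hD hp (by omega)

/-- the residues modulo the primes in `(a, a + r]` -/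
lemma not_dvd {a b r : ℕ} (h : Red a b r) {p : ℕ} (hp : p.Prime) (hap : a < p) (hpr : p ≤ a + r)
    {j : ℕ} (hj1 : 1 ≤ j) (hja : j ≤ a) : ¬ p ∣ b + j := by
  have h1 := noCarry_of_red h p 1 hp one_pos
  rw [pow_one, Nat.div_eq_of_lt hap, Nat.mod_eq_of_lt hap] at h1
  have h2 := h1 (by simpa using hpr)
  intro hd
  have h3 : (b + j) % p = 0 := Nat.mod_eq_zero_of_dvd hd
  rw [Nat.add_mod, Nat.mod_eq_of_lt (by omega : j < p), Nat.mod_eq_of_lt (by omega)] at h3
  omega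

/-- blocks of size `r + 1` -/
lemma red_one_of_prime {b r : ℕ} (hp : (b + 1).Prime) (hr : r + 1 < b + 1) : Red 1 b r := by
  intro t ht
  have e : (1 + t).choose t = t + 1 := by
    rw [add_comm]; simp
  rw [e]
  have h1 : (b + 1) * b.choose t = (b + 1).choose (t + 1) * (t + 1) := Nat.add_one_mul_choose_eq b t
  have h2 : t + 1 ∣ (b + 1) * b.choose t := by rw [h1]; exact dvd_mul_left _ _
  refine Nat.Coprime.dvd_of_dvd_mul_left ?_ h2
  rw [Nat.coprime_comm]
  exact (Nat.Prime.coprime_iff_not_dvd hp).2 fun h => by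
    have := Nat.le_of_dvd (by omega) h
    omega

end Pool.Agent.Helper59K9.St
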