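import Pool.Agent.H373R2.T7.Fund
import Pool.Agent.Helper923.HMertens

set_option autoImplicit false
set_option maxHeartbeats 4000000

namespace Pool.Agent.Helper59K9.St
open Finset
open Pool.Agent.H373R2.T7 (pz mem_pz nuB PerB nuB_le sys_fund)
open Pool.Agent.Helper923.HMertens (mertens_ratio)

/-- the sieve condition -/
def QS (a c : ℕ) (p s : ℕ) : Prop := a + 1 < p ∧ ∃ j ∈ Icc 1 c, p ∣ (a + 1) * s + j

lemma QS_per (a c : ℕ) (p n : ℕ) : QS a c p n ↔ QS a c p (n % p) := by
  unfold QS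
  refine and_congr_right fun _ => exists_congr fun j => and_congr_right fun _ => ?_
  have h : (a + 1) * n + j ≡ (a + 1) * (n % p) + j [MOD p] :=
    Nat.ModEq.add_right _ (Nat.ModEq.mul_left _ (Nat.mod_modEq n p).symm)
  exact h.dvd_iff dvd_rfl

open Classical in
lemma QS_few (a c : ℕ) (p : ℕ) (hp : p.Prime) : nuB (QS a c) p ≤ c := by
  unfold nuB
  by_cases hpa : a + 1 < p
  · have hsub : (range p).filter (fun s => QS a c p s) ⊆
        (Icc 1 c).biUnion (fun j => (range p).filter (fun s => p ∣ (a + 1) * s + j)) := by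
      intro s hs
      rw [mem_filter] at hs
      obtain ⟨h1, -, j, hj, h2⟩ := hs
      rw [mem_biUnion]
      exact ⟨j, hj, by rw [mem_filter]; exact ⟨h1, h2⟩⟩
    calc _ ≤ _ := card_le_card hsub
      _ ≤ ∑ j ∈ Icc 1 c, ((range p).filter (fun s => p ∣ (a + 1) * s + j)).card := card_biUnion_le
      _ ≤ ∑ j ∈ Icc 1 c, 1 := by
          apply sum_le_sum
          intro j _
          rw [card_le_one]
          intro s hs t ht
          rw [mem_filter, mem_range] at hs ht
          have h1 : (a + 1) * s + j ≡ (a + 1) * t + j [MOD p] :=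
            ((Nat.modEq_zero_iff_dvd).2 hs.2).trans ((Nat.modEq_zero_iff_dvd).2 ht.2).symm
          have h2 : (a + 1) * s ≡ (a + 1) * t [MOD p] := Nat.ModEq.add_right_cancel' _ h1
          have h3 : s ≡ t [MOD p] := by
            apply Nat.ModEq.cancel_left_of_coprime _ h2
            exact (Nat.Prime.coprime_iff_not_dvd hp).2 fun h => by
              have := Nat.le_of_dvd (by omega) h
              omega
          have := h3
          unfold Nat.ModEq at this
          rwa [Nat.mod_eq_of_lt hs.1, Nat.mod_eq_of_lt ht.1] at this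
      _ = c := by simp
  · have : (range p).filter (fun s => QS a c p s) = ∅ := by
      rw [filter_eq_empty_iff]
      intro s _ h
      exact hpa h.1
    rw [this]
    simp

lemma QS_perB (a c : ℕ) : PerB (QS a c) c := ⟨QS_per a c, fun p hp => QS_few a c p hp⟩

open Classical in
lemma QS_low {a c : ℕ} (hca : c ≤ a) {p : ℕ} (hp : p.Prime) (hpa : a + 1 < p) :
    c ≤ nuB (QS a c) p := by
  unfold nuB
  have : Fact p.Prime := ⟨hp⟩
  have hu : ((a + 1 : ℕ) : ZMod p) ≠ 0 := by
    intro h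
    rw [ZMod.natCast_eq_zero_iff] at h
    have := Nat.le_of_dvd (by omega) h
    omega
  set f : ℕ → ℕ := fun j => ((-(j : ZMod p)) * ((a + 1 : ℕ) : ZMod p)⁻¹).val with hf
  have hdvd : ∀ j, p ∣ (a + 1) * f j + j := by
    intro j
    rw [← ZMod.natCast_eq_zero_iff]
    rw [Nat.cast_add, Nat.cast_mul, hf]
    simp only [ZMod.natCast_val, ZMod.cast_id', id_eq]
    field_simp
    ring
  have hlt : ∀ j, f j < p := fun j => ZMod.val_lt _
  calc c = (Icc 1 c).card := by simp
    _ ≤ _ := by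
      apply card_le_card_of_injOn f
      · intro j hj
        rw [mem_coe] at hj
        rw [mem_coe, mem_filter, mem_range]
        exact ⟨hlt j, hpa, j, hj, hdvd j⟩
      · intro i hi j hj hij
        rw [mem_coe, mem_Icc] at hi hj
        have h1 := hdvd i
        have h2 := hdvd j
        rw [hij] at h1
        have h3 : (a + 1) * f j + i ≡ (a + 1) * f j + j [MOD p] :=
          ((Nat.modEq_zero_iff_dvd).2 h1).trans ((Nat.modEq_zero_iff_dvd).2 h2).symm
        have h4 : i ≡ j [MOD p] := Nat.ModEq.add_left_cancel' _ h3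
        unfold Nat.ModEq at h4
        rwa [Nat.mod_eq_of_lt (by omega), Nat.mod_eq_of_lt (by omega)] at h4

open Classical in
/-- The sieve of dimension `c`, uniformly in the modulus `a + 1`. -/
theorem sieve (c : ℕ) (hc : 1 ≤ c) : ∃ K y₀ : ℕ, 1 ≤ K ∧ ∃ C : ℝ, 0 < C ∧ ∀ a : ℕ, c ≤ a →
    ∀ y : ℕ, y₀ ≤ y → a + 1 ≤ y → ∀ Y : ℕ,
      (((Icc 1 Y).filter (fun s => ∀ p ∈ pz y, ¬ QS a c p s)).card : ℝ) ≤
        C * Y * (Real.log (a + 1 : ℕ) / Real.log y) ^ c + (y : ℝ) ^ K := by
  obtain ⟨K, x₀, hK, hF⟩ := sys_fund c hc 1 one_pos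
  obtain ⟨C, hC, hM⟩ := mertens_ratio
  refine ⟨K, x₀ + 2, hK, 2 * Real.exp (c * (C / Real.log 2)), by positivity, fun a hca y hy hay Y => ?_⟩
  have hy2 : 2 ≤ y := by omega
  have h1 := hF (y ^ K) y (by omega) le_rfl (QS a c) (QS_perB a c) Y
  have hl2 : 0 < Real.log 2 := Real.log_pos (by norm_num)
  have hla : 0 < Real.log (a + 1 : ℕ) := Real.log_pos (by exact_mod_cast (by omega : 1 < a + 1))
  have hl2a : Real.log 2 ≤ Real.log (a + 1 : ℕ) :=
    Real.log_le_log (by norm_num) (by exact_mod_cast (by omega : 2 ≤ a + 1))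
  have hly : 0 < Real.log y := Real.log_pos (by exact_mod_cast (by omega : 1 < y))
  have hprod : ∏ p ∈ pz y, (1 - (nuB (QS a c) p : ℝ) / p) ≤
      Real.exp (c * (C / Real.log 2)) * (Real.log (a + 1 : ℕ) / Real.log y) ^ c := by
    have hfac : ∀ p ∈ pz y, (1 - (nuB (QS a c) p : ℝ) / p) ≤
        Real.exp (if a + 1 < p then -((c : ℝ) * (1 / p)) else 0) := by
      intro p hp
      obtain ⟨hpy, hpp⟩ := mem_pz.1 hp
      have hp0 : (0 : ℝ) < p := by exact_mod_cast hpp.pos
      split_ifs with hpa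
      · refine le_trans ?_ (Real.one_sub_le_exp_neg _)
        have : (c : ℝ) ≤ nuB (QS a c) p := by exact_mod_cast QS_low hca hpp hpa
        have h3 : (c : ℝ) * (1 / p) ≤ (nuB (QS a c) p : ℝ) / p := by
          rw [mul_one_div]; gcongr
        linarith
      · rw [Real.exp_zero]
        have : 0 ≤ (nuB (QS a c) p : ℝ) / p := by positivity
        linarith
    have hnn : ∀ p ∈ pz y, 0 ≤ (1 - (nuB (QS a c) p : ℝ) / p) := by
      intro p hp
      obtain ⟨hpy, hpp⟩ := mem_pz.1 hp
      have hp0 : (0 : ℝ) < p := by exact_mod_cast hpp.pos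
      have : (nuB (QS a c) p : ℝ) / p ≤ 1 := by
        rw [div_le_one hp0]; exact_mod_cast nuB_le _ _
      linarith
    refine (prod_le_prod hnn hfac).trans ?_
    rw [← Real.exp_sum]
    have hset : (pz y).filter (fun p => a + 1 < p) = (Ioc (a + 1) y).filter Nat.Prime := by
      ext p
      rw [mem_filter, mem_pz, mem_filter, mem_Ioc]
      constructor
      · rintro ⟨⟨h1, h2⟩, h3⟩; exact ⟨⟨h3, h1⟩, h2⟩
      · rintro ⟨⟨h3, h1⟩, h2⟩; exact ⟨⟨h1, h2⟩, h3⟩
    rw [← sum_filter, hset, sum_neg_distrib, ← mul_sum]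
    have h2 := (abs_le.1 (hM (a + 1) y (by omega) hay)).1
    have h3 : C / Real.log (a + 1 : ℕ) ≤ C / Real.log 2 := by gcongr
    have h4 : Real.log (Real.log y / Real.log (a + 1 : ℕ)) - C / Real.log 2 ≤
        ∑ p ∈ (Ioc (a + 1) y).filter Nat.Prime, (1 : ℝ) / p := by linarith
    have h5 : -((c : ℝ) * ∑ p ∈ (Ioc (a + 1) y).filter Nat.Prime, (1 : ℝ) / p) ≤
        c * (C / Real.log 2) + c * (-Real.log (Real.log y / Real.log (a + 1 : ℕ))) := by
      have hc0 : (0 : ℝ) ≤ c := by positivity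
      nlinarith
    refine (Real.exp_le_exp.2 h5).trans ?_
    rw [Real.exp_add]
    apply mul_le_mul_of_nonneg_left _ (Real.exp_pos _).le
    rw [← Real.log_inv, inv_div, mul_comm, Real.exp_mul, Real.exp_log (by positivity),
      Real.rpow_natCast]
  have hs : √((y ^ K : ℕ) : ℝ) ≤ (y : ℝ) ^ K := by
    push_cast
    have h1y : (1 : ℝ) ≤ (y : ℝ) ^ K := one_le_pow₀ (by exact_mod_cast (by omega : 1 ≤ y))
    rw [Real.sqrt_le_left (by positivity)]
    nlinarith
  have h2 := (abs_le.1 h1).2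
  have hY : (0 : ℝ) ≤ Y := by positivity
  have h3 := mul_le_mul_of_nonneg_left hprod hY
  calc (((Icc 1 Y).filter (fun s => ∀ p ∈ pz y, ¬ QS a c p s)).card : ℝ)
      ≤ 2 * (Y * ∏ p ∈ pz y, (1 - (nuB (QS a c) p : ℝ) / p)) + √((y ^ K : ℕ) : ℝ) := by linarith
    _ ≤ 2 * (Y * (Real.exp (c * (C / Real.log 2)) * (Real.log (a + 1 : ℕ) / Real.log y) ^ c)) +
        (y : ℝ) ^ K := by linarith
    _ = _ := by ring

lemma card_div_le (M : ℕ) (hM : 1 ≤ M) : (M.divisors.card : ℝ) ≤ 2 * Real.sqrt M := by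
  have h1 : M.divisors ⊆ (Finset.Icc 1 (Nat.sqrt M)) ∪
      (Finset.Icc 1 (Nat.sqrt M)).image (fun d => M / d) := by
    intro d hd
    have hdk := Nat.dvd_of_mem_divisors hd
    have hd0 := Nat.pos_of_mem_divisors hd
    rw [Finset.mem_union]
    by_cases h : d ≤ Nat.sqrt M
    · left; rw [Finset.mem_Icc]; exact ⟨hd0, h⟩
    · right
      rw [Finset.mem_image]
      refine ⟨M / d, ?_, Nat.div_div_self hdk (by omega)⟩
      rw [Finset.mem_Icc]
      constructor
      · exact Nat.div_pos (Nat.le_of_dvd (by omega) hdk) hd0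
      · by_contra hcon
        push Not at h hcon
        have h2 : d * (M / d) = M := Nat.mul_div_cancel' hdk
        have h3 := Nat.lt_succ_sqrt M
        have h4 : (Nat.sqrt M + 1) * (Nat.sqrt M + 1) ≤ d * (M / d) := Nat.mul_le_mul h hcon
        rw [h2] at h4
        exact absurd h3 (not_lt.mpr h4)
  have h3 : M.divisors.card ≤ 2 * Nat.sqrt M := by
    calc M.divisors.card ≤ ((Finset.Icc 1 (Nat.sqrt M)) ∪
        (Finset.Icc 1 (Nat.sqrt M)).image (fun d => M / d)).card := Finset.card_le_card h1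
      _ ≤ (Finset.Icc 1 (Nat.sqrt M)).card +
        ((Finset.Icc 1 (Nat.sqrt M)).image (fun d => M / d)).card := Finset.card_union_le _ _
      _ ≤ Nat.sqrt M + Nat.sqrt M := by
          apply add_le_add
          · simp
          · exact Finset.card_image_le.trans (by simp)
      _ = 2 * Nat.sqrt M := by ring
  have h4 : (M.divisors.card : ℝ) ≤ ((2 * Nat.sqrt M : ℕ) : ℝ) := by exact_mod_cast h3
  push_cast at h4
  have := Real.nat_sqrt_le_real_sqrt (a := M)
  linarith

/-- two consecutive numbers -/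
theorem pair_count (M Y : ℕ) (hM : 1 ≤ M) :
    (((Icc 1 Y).filter (fun s => M ∣ s * (s + 1))).card : ℝ) ≤ 2 * Real.sqrt M * (Y / M + 1) := by
  have hsub : (Icc 1 Y).filter (fun s => M ∣ s * (s + 1)) ⊆
      M.divisors.biUnion (fun d => (Icc 1 Y).filter (fun s => d ∣ s ∧ M / d ∣ s + 1 ∧
        Nat.Coprime d (M / d))) := by
    intro s hs
    rw [mem_filter] at hs
    obtain ⟨h1, h2⟩ := hs
    have hs1 : 1 ≤ s := (mem_Icc.1 h1).1
    rw [mem_biUnion]
    have hd0 : 0 < Nat.gcd s M := Nat.gcd_pos_of_pos_left _ hs1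
    have hdM : Nat.gcd s M ∣ M := Nat.gcd_dvd_right _ _
    have hds : Nat.gcd s M ∣ s := Nat.gcd_dvd_left _ _
    refine ⟨Nat.gcd s M, Nat.mem_divisors.2 ⟨hdM, by omega⟩, ?_⟩
    have h3 : M / Nat.gcd s M ∣ s + 1 := by
      have h4 : M / Nat.gcd s M ∣ (s / Nat.gcd s M) * (s + 1) := by
        rw [Nat.div_dvd_iff_dvd_mul hdM hd0, ← mul_assoc, Nat.mul_div_cancel' hds]
        exact h2
      refine Nat.Coprime.dvd_of_dvd_mul_left ?_ h4
      exact (Nat.coprime_div_gcd_div_gcd hd0).symm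
    rw [mem_filter]
    refine ⟨h1, hds, h3, ?_⟩
    have h5 : Nat.gcd (Nat.gcd s M) (M / Nat.gcd s M) ∣ 1 := by
      have h6 : Nat.gcd (Nat.gcd s M) (M / Nat.gcd s M) ∣ s := (Nat.gcd_dvd_left _ _).trans hds
      have h7 : Nat.gcd (Nat.gcd s M) (M / Nat.gcd s M) ∣ s + 1 := (Nat.gcd_dvd_right _ _).trans h3
      exact (Nat.dvd_add_right h6).1 h7
    exact Nat.eq_one_of_dvd_one h5
  have hone : ∀ d ∈ M.divisors, ((Icc 1 Y).filter (fun s => d ∣ s ∧ M / d ∣ s + 1 ∧
        Nat.Coprime d (M / d))).card ≤ Y / M + 1 := by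
    intro d hd
    have hdM := Nat.dvd_of_mem_divisors hd
    calc _ ≤ (range (Y / M + 1)).card := by
          apply card_le_card_of_injOn (fun s => s / M)
          · intro s hs
            rw [mem_coe, mem_filter, mem_Icc] at hs
            rw [mem_coe, mem_range]
            have := Nat.div_le_div_right (c := M) hs.1.2
            simp only
            omega
          · intro s hs t ht hst
            rw [mem_coe, mem_filter] at hs ht
            obtain ⟨-, h1, h2, h3⟩ := hs
            obtain ⟨-, h4, h5, -⟩ := ht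
            have e1 : s ≡ t [MOD d] :=
              ((Nat.modEq_zero_iff_dvd).2 h1).trans ((Nat.modEq_zero_iff_dvd).2 h4).symm
            have e2 : s ≡ t [MOD (M / d)] :=
              Nat.ModEq.add_right_cancel' 1
                (((Nat.modEq_zero_iff_dvd).2 h2).trans ((Nat.modEq_zero_iff_dvd).2 h5).symm)
            have e3 := (Nat.modEq_and_modEq_iff_modEq_mul h3).1 ⟨e1, e2⟩
            rw [Nat.mul_div_cancel' hdM] at e3
            unfold Nat.ModEq at e3
            simp only at hst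
            rw [← Nat.div_add_mod s M, ← Nat.div_add_mod t M, hst, e3]
      _ = _ := card_range _
  have h1 : ((Icc 1 Y).filter (fun s => M ∣ s * (s + 1))).card ≤ M.divisors.card * (Y / M + 1) := by
    calc _ ≤ _ := card_le_card hsub
      _ ≤ _ := card_biUnion_le
      _ ≤ ∑ d ∈ M.divisors, (Y / M + 1) := sum_le_sum hone
      _ = _ := by rw [sum_const, smul_eq_mul]
  have h2 := card_div_le M hM
  have h3 : ((Y / M : ℕ) : ℝ) ≤ (Y : ℝ) / M := Nat.cast_div_le
  calc _ ≤ ((M.divisors.card * (Y / M + 1) : ℕ) : ℝ) := by exact_mod_cast h1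
    _ = (M.divisors.card : ℝ) * (((Y / M : ℕ) : ℝ) + 1) := by push_cast; ring
    _ ≤ 2 * Real.sqrt M * (Y / M + 1) := by gcongr

end Pool.Agent.Helper59K9.St
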