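import Pool.Agent.Helper59K9.St.Ari
import Pool.Agent.Helper59K9.St.Cnt1

set_option autoImplicit false
set_option maxHeartbeats 4000000

namespace Pool.Agent.Helper59K9.St
open Finset
open Pool.Agent.H373R2.T7 (pz mem_pz)
open Pool.Agent.H895R3.NK (ev_log')
open Pool.Agent.R60.Steiner (IsSteiner DivCond NoCarry Red divCond_iff_red noCarry_of_red
  divCond_of_isSteiner)

open Classical in
/-- the pairs `(n, q)` -/
noncomputable def FF (X r b : ℕ) : Finset (ℕ × ℕ) :=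
  (Icc 1 X ×ˢ Icc 1 X).filter (fun z => r + b ≤ z.2 ∧ z.2 < z.1 ∧ DivCond z.1 z.2 r)

open Classical in
/-- the quotients `(n - q) / (a + 1)`, `a = q - r` -/
noncomputable def GG (X r a : ℕ) : Finset ℕ :=
  (Icc 1 (X / (a + 1))).filter (fun s => Red a ((a + 1) * s) r)

lemma FF_le {X r b : ℕ} (hr : 1 ≤ r) (hb : 1 ≤ b) :
    (FF X r b).card ≤ ∑ a ∈ Icc b X, (GG X r a).card := by
  classical
  have hsub : FF X r b ⊆ (Icc b X).biUnion
      (fun a => (GG X r a).image (fun s => (r + a + (a + 1) * s, r + a))) := by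
    rintro ⟨n, q⟩ hz
    unfold FF at hz
    rw [mem_filter, mem_product, mem_Icc, mem_Icc] at hz
    obtain ⟨⟨⟨hn1, hnX⟩, hq1, hqX⟩, hq, hqn, hD⟩ := hz
    simp only at hn1 hnX hq1 hqX hq hqn hD
    have hR := (divCond_iff_red (by omega) hqn.le).1 hD
    obtain ⟨s, hs⟩ := dvd_one hR hr
    rw [mem_biUnion]
    refine ⟨q - r, by rw [mem_Icc]; omega, ?_⟩
    rw [mem_image]
    refine ⟨s, ?_, ?_⟩
    · unfold GG
      rw [mem_filter, mem_Icc, ← hs]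
      have hs0 : s ≠ 0 := by rintro rfl; omega
      refine ⟨⟨by omega, ?_⟩, hR⟩
      rw [Nat.le_div_iff_mul_le (by omega), mul_comm, ← hs]
      omega
    · rw [← hs, Prod.mk.injEq]; omega
  calc _ ≤ _ := card_le_card hsub
    _ ≤ _ := card_biUnion_le
    _ ≤ _ := sum_le_sum fun a _ => card_image_le

lemma GG_le (X r a : ℕ) : ((GG X r a).card : ℝ) ≤ (X : ℝ) / ((a : ℝ) + 1) := by
  classical
  have h1 : (GG X r a).card ≤ X / (a + 1) := by
    unfold GG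
    refine (card_filter_le _ _).trans ?_
    simp
  calc ((GG X r a).card : ℝ) ≤ ((X / (a + 1) : ℕ) : ℝ) := by exact_mod_cast h1
    _ ≤ (X : ℝ) / ((a + 1 : ℕ) : ℝ) := Nat.cast_div_le
    _ = _ := by push_cast; rfl

lemma GG_two {X r a : ℕ} (hr : 2 ≤ r) : ((GG X r a).card : ℝ) ≤
    2 * Real.sqrt ((a + 2 : ℕ) : ℝ) * ((X : ℝ) / ((a : ℝ) + 1) / ((a + 2 : ℕ) : ℝ) + 1) := by
  classical
  have h1 : GG X r a ⊆ (Icc 1 (X / (a + 1))).filter (fun s => (a + 2) ∣ s * (s + 1)) := by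
    intro s hs
    unfold GG at hs
    rw [mem_filter] at hs ⊢
    exact ⟨hs.1, dvd_two hs.2 hr⟩
  have h2 := pair_count (a + 2) (X / (a + 1)) (by omega)
  have h3 : ((X / (a + 1) : ℕ) : ℝ) ≤ (X : ℝ) / ((a : ℝ) + 1) := by
    have := Nat.cast_div_le (α := ℝ) (m := X) (n := a + 1)
    push_cast at this
    exact this
  calc ((GG X r a).card : ℝ) ≤ _ := by exact_mod_cast card_le_card h1
    _ ≤ _ := h2
    _ ≤ _ := by gcongr

open Classical in
lemma GG_sieve {X r a c y : ℕ} (hca : c ≤ a) (hy : y ≤ a + r) : GG X r a ⊆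
    (Icc 1 (X / (a + 1))).filter (fun s => ∀ p ∈ pz y, ¬ QS a c p s) := by
  intro s hs
  unfold GG at hs
  rw [mem_filter] at hs ⊢
  refine ⟨hs.1, fun p hp hQ => ?_⟩
  obtain ⟨hpy, hpp⟩ := mem_pz.1 hp
  obtain ⟨hap, j, hj, hd⟩ := hQ
  rw [mem_Icc] at hj
  exact not_dvd hs.2 hpp (by omega) (by omega) hj.1 (by omega) hd

lemma GG_large (C : ℕ) : ∃ K : ℕ, ∀ X r a : ℕ, K ≤ min r a → r ≤ X → a ≤ X →
    3 * X ≤ min r a ^ C → GG X r a = ∅ := by
  classical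
  obtain ⟨K, hK⟩ := arith' C
  refine ⟨K + 1, fun X r a h1 h2 h3 h4 => ?_⟩
  unfold GG
  rw [filter_eq_empty_iff]
  intro s hs hR
  rw [mem_Icc, Nat.le_div_iff_mul_le (by omega), mul_comm s] at hs
  have hs1 : 0 < (a + 1) * s := Nat.mul_pos (by omega) hs.1
  have e1 : r + a - r = a := by omega
  have e2 : r + a + (a + 1) * s - (r + a) = (a + 1) * s := by omega
  have := hK (r + a + (a + 1) * s) (r + a) r (by omega) (by omega) (by rw [e1]; omega)
    ((divCond_iff_red (by omega) (by omega)).2 (by rw [e1, e2]; exact hR))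
  rw [e1] at this
  omega

/-- the asymptotic facts -/
lemma ev (δ ε : ℝ) (hδ : 0 < δ) (hε : 0 < ε) (b y₀ K₃ : ℕ) : ∃ X₀ : ℕ, ∀ X : ℕ, X₀ ≤ X →
    12 ≤ X ∧ 3 ≤ Real.log X ∧ 1 ≤ Real.log (Real.log X) ∧
      (Real.log (Real.log X)) ^ (b + 2) ≤ Real.log X ∧
      (Real.log X) ^ (3 * b + 2) ≤ (X : ℝ) ^ ((1 : ℝ) / 4) ∧
      (y₀ : ℝ) + 3 + 2 * (Real.log X) ^ (2 * b + 2) ≤ (X : ℝ) ^ (δ / 2) ∧
      (K₃ : ℝ) ≤ (X : ℝ) ^ ε := by
  obtain ⟨N₁, h1⟩ := ev_log' (1 / 4) (by norm_num) (3 * b + 2) 3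
  obtain ⟨N₂, h2⟩ := ev_log' (δ / 4) (by positivity) (2 * b + 2) 0
  have hc : Filter.Tendsto (fun N : ℕ => (N : ℝ)) Filter.atTop Filter.atTop :=
    tendsto_natCast_atTop_atTop
  have t1 : Filter.Tendsto (fun X : ℕ => (X : ℝ) ^ (δ / 4)) Filter.atTop Filter.atTop :=
    (tendsto_rpow_atTop (by positivity)).comp hc
  have t2 : Filter.Tendsto (fun X : ℕ => (X : ℝ) ^ ε) Filter.atTop Filter.atTop :=
    (tendsto_rpow_atTop hε).comp hc
  have t3 : Filter.Tendsto (fun X : ℕ => Real.log X) Filter.atTop Filter.atTop :=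
    Real.tendsto_log_atTop.comp hc
  have t4 : Filter.Tendsto (fun X : ℕ => Real.log (Real.log X)) Filter.atTop Filter.atTop :=
    Real.tendsto_log_atTop.comp t3
  have t5 : ∀ᶠ X : ℕ in Filter.atTop, (Real.log (Real.log X)) ^ (b + 2) ≤ Real.log X := by
    have h := (Real.isLittleO_pow_log_id_atTop (n := b + 2)).bound (show (0 : ℝ) < 1 by norm_num)
    have h' := t3.eventually h
    filter_upwards [h', t3.eventually_ge_atTop 0] with X hX hX0
    simp only [id_eq, one_mul] at hX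
    rw [Real.norm_of_nonneg hX0] at hX
    exact (le_abs_self _).trans hX
  obtain ⟨N₃, h3⟩ := Filter.eventually_atTop.1 ((t1.eventually_ge_atTop ((y₀ : ℝ) + 5)).and
    ((t2.eventually_ge_atTop (K₃ : ℝ)).and ((t4.eventually_ge_atTop 1).and t5)))
  refine ⟨N₁ + N₂ + N₃, fun X hX => ?_⟩
  obtain ⟨a1, a2, a3, -, a5⟩ := h1 X (by omega)
  obtain ⟨-, -, -, -, b5⟩ := h2 X (by omega)
  obtain ⟨c1, c2, c3, c4⟩ := h3 X (by omega)
  refine ⟨a1, a2, c3, c4, a5, ?_, c2⟩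
  have hX0 : (0 : ℝ) < X := by exact_mod_cast (by omega : 0 < X)
  have e : (X : ℝ) ^ (δ / 2) = (X : ℝ) ^ (δ / 4) * (X : ℝ) ^ (δ / 4) := by
    rw [← Real.rpow_add hX0]; congr 1; ring
  rw [e]
  have h5 : (5 : ℝ) ≤ (X : ℝ) ^ (δ / 4) := by
    have : (0 : ℝ) ≤ y₀ := by positivity
    linarith
  nlinarith

end Pool.Agent.Helper59K9.St
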