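import Pool.Agent.Helper59K9.St.Cnt2

set_option autoImplicit false
set_option maxHeartbeats 4000000

namespace Pool.Agent.Helper59K9.St
open Finset
open Pool.Agent.H373R2.T7 (pz mem_pz)
open Pool.Agent.R60.Steiner (IsSteiner DivCond NoCarry Red divCond_iff_red noCarry_of_red
  divCond_of_isSteiner)

lemma harm_le (n : ℕ) : ∑ a ∈ range n, 1 / ((a : ℝ) + 1) ≤ 1 + Real.log n := by
  have h := harmonic_le_one_add_log n
  have e : ((harmonic n : ℚ) : ℝ) = ∑ a ∈ range n, 1 / ((a : ℝ) + 1) := by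
    unfold harmonic
    push_cast
    refine sum_congr rfl fun i _ => ?_
    rw [one_div]
  rw [← e]; exact h

lemma aux1 {s t X u : ℝ} (hs : 0 < s) (hu : 0 < u) (ht : s * s = t) :
    2 * s * (X / u / t + 1) = 2 * X / s * (1 / u) + 2 * s := by
  subst ht
  field_simp

lemma aux2 {X L : ℝ} (b : ℕ) (hL : 0 < L) : X * (L / L ^ (b + 1)) = X / L ^ b := by
  rw [pow_succ L b]
  field_simp

lemma aux3 {X L : ℝ} (b : ℕ) (hL : 0 < L) : 2 * X / L ^ (b + 1) * (2 * L) = 4 * (X / L ^ b) := by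
  rw [pow_succ L b]
  field_simp
  ring

lemma aux4 {X L c l δ : ℝ} (b : ℕ) (hL : 0 < L) (hδ : 0 < δ) :
    c * X * (l / (δ / 2 * L)) ^ b = c * (2 * l / δ) ^ b * (X / L ^ b) := by
  have : l / (δ / 2 * L) = (2 * l / δ) / L := by field_simp
  rw [this, div_pow _ L]
  field_simp

lemma aux5 {X L l δ C M : ℝ} (b : ℕ) (hL : 0 < L) (hδ : 0 < δ) :
    C * X * (M * l / (δ / 2 * L)) ^ (b + 1) * (2 * M * l) =
      C * (2 * M / δ) ^ (b + 1) * (2 * M) * (X * (l ^ (b + 2) / L ^ (b + 1))) := by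
  have : M * l / (δ / 2 * L) = (2 * M / δ) * (l / L) := by field_simp
  rw [this, mul_pow, div_pow l L]
  ring

theorem sum_large (ε : ℝ) (hε : 0 < ε) (hε4 : ε ≤ 1 / 4) (b : ℕ) (hb : 1 ≤ b) :
    ∃ (K : ℝ) (X₀ : ℕ), 0 < K ∧ ∀ X : ℕ, X₀ ≤ X → ∀ r : ℕ, (X : ℝ) ^ ε ≤ r → r ≤ X →
      ∑ a ∈ Icc b X, ((GG X r a).card : ℝ) ≤ K * (X / (Real.log X) ^ b) := by
  classical
  obtain ⟨K1, y1, hK1, C1, hC1, S1⟩ := sieve b hb
  obtain ⟨K2, y2, hK2, C2, hC2, S2⟩ := sieve (b + 1) (by omega)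
  obtain ⟨K3, hL⟩ := GG_large ⌈2 / ε⌉₊
  set δ : ℝ := ε / ((K1 : ℝ) + K2) with hδ
  have hK1r : (1 : ℝ) ≤ K1 := by exact_mod_cast hK1
  have hK2r : (1 : ℝ) ≤ K2 := by exact_mod_cast hK2
  have hδ0 : 0 < δ := by positivity
  have hδK : δ * (K1 + K2) = ε := by rw [hδ]; field_simp
  have hδε : δ ≤ ε := by nlinarith
  have hδ1 : δ * K1 ≤ 1 / 4 := by nlinarith
  have hδ2 : δ * K2 ≤ 1 / 4 := by nlinarith
  obtain ⟨X₀, hX₀⟩ := ev δ ε hδ0 hε b (y1 + y2 + b) K3
  set M : ℝ := 2 * b + 3 with hM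
  have hM1 : 1 ≤ M := by
    have : (0 : ℝ) ≤ b := by positivity
    rw [hM]; linarith
  have hlb : 0 ≤ Real.log (b + 1 : ℕ) := Real.log_natCast_nonneg _
  refine ⟨(C1 * (2 * Real.log (b + 1 : ℕ) / δ) ^ b + 1) + (C2 * (2 * M / δ) ^ (b + 1) * (2 * M) + 2) +
    (4 + 16), X₀, by positivity, fun X hX r hr hrX => ?_⟩
  obtain ⟨hX12, hL3, hLL, hLLb, hLb, hXδ, hK3⟩ := hX₀ X hX
  set L : ℝ := Real.log X with hLdef
  have hXr : (12 : ℝ) ≤ X := by exact_mod_cast hX12
  have hX0 : (0 : ℝ) < X := by linarith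
  have hL0 : 0 < L := by linarith
  have hL1 : 1 ≤ L := by linarith
  set W : ℝ := X / L ^ b with hW
  have hW0 : 0 < W := by positivity
  set Z : ℝ := (X : ℝ) ^ ((1 : ℝ) / 4) with hZ
  have hZ2 : Z * Z ≤ X := by
    rw [hZ, ← Real.rpow_add hX0]
    calc (X : ℝ) ^ ((1 : ℝ) / 4 + 1 / 4) ≤ (X : ℝ) ^ (1 : ℝ) :=
          Real.rpow_le_rpow_of_exponent_le (by linarith) (by norm_num)
      _ = X := Real.rpow_one _
  have hZ4 : Z * Z * Z * Z = X := by
    rw [hZ, ← Real.rpow_add hX0, ← Real.rpow_add hX0, ← Real.rpow_add hX0]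
    norm_num
  have hZ3 : 3 ≤ Z := by
    calc (3 : ℝ) ≤ L := hL3
      _ = L ^ 1 := (pow_one L).symm
      _ ≤ L ^ (3 * b + 2) := pow_le_pow_right₀ hL1 (by omega)
      _ ≤ Z := hLb
  -- the level of the sieve
  set y : ℕ := ⌊(X : ℝ) ^ δ⌋₊ with hy
  have hy1 : (y : ℝ) ≤ (X : ℝ) ^ δ := Nat.floor_le (by positivity)
  have hy2 : (X : ℝ) ^ δ < y + 1 := Nat.lt_floor_add_one _
  have hLp : 0 < L ^ (2 * b + 2) := by positivity
  have hLp1 : 1 ≤ L ^ (2 * b + 2) := one_le_pow₀ hL1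
  have hcast0 : (0 : ℝ) ≤ ((y1 + y2 + b : ℕ) : ℝ) := by positivity
  have hy3 : (X : ℝ) ^ (δ / 2) ≤ y := by
    have e : (X : ℝ) ^ δ = (X : ℝ) ^ (δ / 2) * (X : ℝ) ^ (δ / 2) := by
      rw [← Real.rpow_add hX0]; congr 1; ring
    have h3 : 3 ≤ (X : ℝ) ^ (δ / 2) := by linarith
    have h4 := mul_le_mul_of_nonneg_right h3 (by positivity : 0 ≤ (X : ℝ) ^ (δ / 2))
    linarith
  have hy4 : ((y1 + y2 + b : ℕ) : ℝ) + 3 + 2 * L ^ (2 * b + 2) ≤ y := hXδ.trans hy3
  have hyb : y1 + y2 + b + 3 ≤ y := by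
    have : ((y1 + y2 + b + 3 : ℕ) : ℝ) ≤ y := by push_cast; push_cast at hy4; linarith
    exact_mod_cast this
  have hlogy : δ / 2 * L ≤ Real.log y := by
    rw [hLdef, ← Real.log_rpow hX0]
    exact Real.log_le_log (by positivity) hy3
  have hlogy0 : 0 < δ / 2 * L := by positivity
  have hyr : y ≤ r := by
    have : (y : ℝ) ≤ r := hy1.trans ((Real.rpow_le_rpow_of_exponent_le (by linarith) hδε).trans hr)
    exact_mod_cast this
  have hyK : ∀ k : ℕ, δ * k ≤ 1 / 4 → (y : ℝ) ^ k ≤ Z := by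
    intro k hk
    calc (y : ℝ) ^ k ≤ ((X : ℝ) ^ δ) ^ k := pow_le_pow_left₀ (by positivity) hy1 k
      _ = (X : ℝ) ^ (δ * k) := by rw [Real.rpow_mul hX0.le, Real.rpow_natCast]
      _ ≤ Z := Real.rpow_le_rpow_of_exponent_le (by linarith) hk
  -- the cut
  set A : ℕ := ⌈L ^ (2 * b + 2)⌉₊ with hA
  have hA1 : L ^ (2 * b + 2) ≤ A := Nat.le_ceil _
  have hA2 : (A : ℝ) < L ^ (2 * b + 2) + 1 := Nat.ceil_lt_add_one hLp.le
  have hA0 : 1 ≤ A := by exact_mod_cast hLp1.trans hA1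
  have hAy : A + 1 ≤ y := by
    have : ((A + 1 : ℕ) : ℝ) ≤ y := by push_cast; linarith
    exact_mod_cast this
  have hAL : (A : ℝ) ≤ L ^ (2 * b + 3) := by
    have : L ^ (2 * b + 3) = L ^ (2 * b + 2) * L := pow_succ _ _
    have h4 := mul_le_mul_of_nonneg_left hL3 hLp.le
    rw [this]; linarith
  have hlogA : Real.log A ≤ M * Real.log L := by
    calc Real.log A ≤ Real.log (L ^ (2 * b + 3)) :=
          Real.log_le_log (by exact_mod_cast hA0) hAL
      _ = _ := by rw [Real.log_pow, hM]; push_cast; ring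
  have hlogA0 : 0 ≤ Real.log A := Real.log_natCast_nonneg _
  set Λ : ℝ := (M * Real.log L) / (δ / 2 * L) with hΛ
  have hΛ0 : 0 ≤ Λ := by positivity
  set T : ℕ := ⌈Z⌉₊ with hT
  have hT1 : Z ≤ T := Nat.le_ceil _
  have hT2 : (T : ℝ) < Z + 1 := Nat.ceil_lt_add_one (by linarith)
  have hT0 : 1 ≤ T := by
    have : (1 : ℝ) ≤ T := by linarith
    exact_mod_cast this
  have hsA : L ^ (b + 1) ≤ Real.sqrt A := by
    apply Real.le_sqrt_of_sq_le
    rw [← pow_mul]
    calc L ^ ((b + 1) * 2) = L ^ (2 * b + 2) := by congr 1; ring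
      _ ≤ A := hA1
  have hsA0 : 0 < Real.sqrt A := lt_of_lt_of_le (by positivity) hsA
  -- the majorant
  set m1 : ℝ := C1 * X * (Real.log (b + 1 : ℕ) / (δ / 2 * L)) ^ b + Z with hm1
  set m2 : ℕ → ℝ := fun a => C2 * X * Λ ^ (b + 1) * (1 / ((a : ℝ) + 1)) + Z with hm2
  set m3 : ℕ → ℝ := fun a => 2 * X / Real.sqrt A * (1 / ((a : ℝ) + 1)) + 2 * Real.sqrt ((T : ℝ) + 2) with hm3
  have hm10 : 0 ≤ m1 := by positivity
  have hm20 : ∀ a, 0 ≤ m2 a := fun a => by
    have : 0 < (a : ℝ) + 1 := by positivity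
    positivity
  have hm30 : ∀ a, 0 ≤ m3 a := fun a => by
    have : 0 < (a : ℝ) + 1 := by positivity
    positivity
  have hmaj : ∀ a ∈ Icc b X, ((GG X r a).card : ℝ) ≤
      (if a = b then m1 else 0) + (if a < A then m2 a else 0) + (if A ≤ a ∧ a < T then m3 a else 0) := by
    intro a ha
    rw [mem_Icc] at ha
    have ha1 : (0 : ℝ) < (a : ℝ) + 1 := by positivity
    have i1 : (0 : ℝ) ≤ if a = b then m1 else 0 := by split_ifs; exact hm10; exact le_rfl
    have i2 : (0 : ℝ) ≤ if a < A then m2 a else 0 := by split_ifs; exact hm20 a; exact le_rfl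
    have i3 : (0 : ℝ) ≤ if A ≤ a ∧ a < T then m3 a else 0 := by split_ifs; exact hm30 a; exact le_rfl
    have hYle : ((X / (a + 1) : ℕ) : ℝ) ≤ (X : ℝ) * (1 / ((a : ℝ) + 1)) := by
      have := Nat.cast_div_le (α := ℝ) (m := X) (n := a + 1)
      push_cast at this
      rw [mul_one_div]; exact this
    rcases eq_or_ne a b with hab | hab
    · have h1 : ((GG X r a).card : ℝ) ≤ m1 := by
        refine ((Nat.cast_le (α := ℝ)).2 (card_le_card (GG_sieve (X := X) (r := r) (a := a)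
          (c := b) (y := y) hab.ge (by omega)))).trans ?_
        refine (S1 a hab.ge y (by omega) (by omega) (X / (a + 1))).trans ?_
        rw [hm1, hab]
        apply add_le_add _ (hyK K1 hδ1)
        rw [hab] at hYle
        have h2 : ((X / (b + 1) : ℕ) : ℝ) ≤ X := by
          exact_mod_cast Nat.div_le_self X (b + 1)
        gcongr
      rw [if_pos hab]
      linarith
    · rcases Nat.lt_or_ge a A with haA | haA
      · have h1 : ((GG X r a).card : ℝ) ≤ m2 a := by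
          refine ((Nat.cast_le (α := ℝ)).2 (card_le_card (GG_sieve (X := X) (r := r) (a := a)
            (c := b + 1) (y := y) (by omega) (by omega)))).trans ?_
          refine (S2 a (by omega) y (by omega) (by omega) (X / (a + 1))).trans ?_
          rw [hm2]
          apply add_le_add _ (hyK K2 hδ2)
          have h3 : Real.log (a + 1 : ℕ) ≤ M * Real.log L :=
            (Real.log_le_log (by positivity) (by exact_mod_cast haA)).trans hlogA
          have h4 : Real.log (a + 1 : ℕ) / Real.log y ≤ Λ := by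
            rw [hΛ]
            gcongr
          have h5 : 0 ≤ Real.log (a + 1 : ℕ) / Real.log y :=
            div_nonneg (Real.log_natCast_nonneg _) (Real.log_natCast_nonneg _)
          calc C2 * ((X / (a + 1) : ℕ) : ℝ) * (Real.log (a + 1 : ℕ) / Real.log y) ^ (b + 1)
              ≤ C2 * (X * (1 / ((a : ℝ) + 1))) * Λ ^ (b + 1) := by gcongr
            _ = _ := by ring
        rw [if_pos haA]
        linarith
      · rcases Nat.lt_or_ge a T with haT | haT
        · have h1 : ((GG X r a).card : ℝ) ≤ m3 a := by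
            refine (GG_two (by omega)).trans ?_
            rw [hm3]
            have ha2 : (0 : ℝ) < ((a + 2 : ℕ) : ℝ) := by positivity
            have hs0 : 0 < Real.sqrt ((a + 2 : ℕ) : ℝ) := Real.sqrt_pos.2 ha2
            have hs1 : Real.sqrt A ≤ Real.sqrt ((a + 2 : ℕ) : ℝ) := by
              apply Real.sqrt_le_sqrt
              exact_mod_cast (by omega : A ≤ a + 2)
            have hs2 : Real.sqrt ((a + 2 : ℕ) : ℝ) ≤ Real.sqrt ((T : ℝ) + 2) := by
              apply Real.sqrt_le_sqrt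
              push_cast
              have : (a : ℝ) ≤ T := by exact_mod_cast haT.le
              linarith
            have hs3 : Real.sqrt ((a + 2 : ℕ) : ℝ) * Real.sqrt ((a + 2 : ℕ) : ℝ) = ((a + 2 : ℕ) : ℝ) :=
              Real.mul_self_sqrt ha2.le
            rw [aux1 hs0 ha1 hs3]
            beta_reduce
            gcongr
          rw [if_pos (show A ≤ a ∧ a < T from ⟨haA, haT⟩)]
          linarith
        · -- the large range
          have hεZ : (X : ℝ) ^ ε ≤ Z := Real.rpow_le_rpow_of_exponent_le (by linarith) hε4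
          have haZ : (X : ℝ) ^ ε ≤ a := hεZ.trans (hT1.trans (by exact_mod_cast haT))
          have hmin : (X : ℝ) ^ ε ≤ ((min r a : ℕ) : ℝ) := by
            rcases min_choice r a with h | h
            · rw [h]; exact hr
            · rw [h]; exact haZ
          have h2 : GG X r a = ∅ := by
            apply hL X r a (by exact_mod_cast hK3.trans hmin) hrX ha.2
            have h3 : ((3 * X : ℕ) : ℝ) ≤ ((min r a ^ ⌈2 / ε⌉₊ : ℕ) : ℝ) := by
              calc ((3 * X : ℕ) : ℝ) ≤ (X : ℝ) ^ (2 : ℝ) := by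
                    have h4 := mul_le_mul_of_nonneg_right hXr hX0.le
                    rw [Real.rpow_two, pow_two]; push_cast; linarith
                _ = (X : ℝ) ^ (ε * (2 / ε)) := by rw [mul_div_cancel₀ _ hε.ne']
                _ ≤ (X : ℝ) ^ (ε * (⌈2 / ε⌉₊ : ℝ)) := by
                    apply Real.rpow_le_rpow_of_exponent_le (by linarith)
                    exact mul_le_mul_of_nonneg_left (Nat.le_ceil _) hε.le
                _ = ((X : ℝ) ^ ε) ^ ⌈2 / ε⌉₊ := by rw [Real.rpow_mul hX0.le, Real.rpow_natCast]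
                _ ≤ ((min r a : ℕ) : ℝ) ^ ⌈2 / ε⌉₊ := by gcongr
                _ = _ := by push_cast; rfl
            exact_mod_cast h3
          rw [h2, card_empty]
          push_cast
          linarith
  -- summation
  have hsum : ∑ a ∈ Icc b X, ((GG X r a).card : ℝ) ≤
      m1 + ∑ a ∈ range A, m2 a + ∑ a ∈ range T, m3 a := by
    refine (sum_le_sum hmaj).trans ?_
    rw [sum_add_distrib, sum_add_distrib]
    apply add_le_add (add_le_add _ _) _
    · rw [sum_ite_eq']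
      split_ifs
      · exact le_rfl
      · exact hm10
    · rw [← sum_filter]
      apply sum_le_sum_of_subset_of_nonneg
      · intro a ha
        rw [mem_filter] at ha
        exact mem_range.2 ha.2
      · intro a _ _; exact hm20 a
    · rw [← sum_filter]
      apply sum_le_sum_of_subset_of_nonneg
      · intro a ha
        rw [mem_filter] at ha
        exact mem_range.2 ha.2.2
      · intro a _ _; exact hm30 a
  have hLbW : ∀ t : ℝ, t * L ^ b ≤ X → t ≤ W := by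
    intro t ht
    rw [hW, le_div_iff₀ (by positivity)]
    exact ht
  have hLbZ : L ^ b ≤ Z := (pow_le_pow_right₀ hL1 (by omega)).trans hLb
  have hZW : Z ≤ W := by
    apply hLbW
    calc Z * L ^ b ≤ Z * Z := by gcongr
      _ ≤ X := hZ2
  have s1 : m1 ≤ (C1 * (2 * Real.log (b + 1 : ℕ) / δ) ^ b + 1) * W := by
    have e1 : C1 * X * (Real.log (b + 1 : ℕ) / (δ / 2 * L)) ^ b =
        C1 * (2 * Real.log (b + 1 : ℕ) / δ) ^ b * W := aux4 b hL0 hδ0
    rw [hm1, e1, add_mul, one_mul]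
    linarith
  have s2 : ∑ a ∈ range A, m2 a ≤ (C2 * (2 * M / δ) ^ (b + 1) * (2 * M) + 2) * W := by
    have hH := harm_le A
    have h1 : ∑ a ∈ range A, m2 a = C2 * X * Λ ^ (b + 1) * (∑ a ∈ range A, 1 / ((a : ℝ) + 1)) + A * Z := by
      rw [hm2, sum_add_distrib, ← mul_sum, sum_const, card_range, nsmul_eq_mul]
    rw [h1]
    have h2 : (A : ℝ) * Z ≤ 2 * W := by
      have h3 : (A : ℝ) ≤ 2 * L ^ (2 * b + 2) := by linarith
      have h4 : (A : ℝ) * Z / 2 ≤ W := by
        apply hLbW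
        calc (A : ℝ) * Z / 2 * L ^ b ≤ (2 * L ^ (2 * b + 2)) * Z / 2 * L ^ b := by gcongr
          _ = L ^ (3 * b + 2) * Z := by ring
          _ ≤ Z * Z := by gcongr
          _ ≤ X := hZ2
      linarith
    have h5 : ∑ a ∈ range A, 1 / ((a : ℝ) + 1) ≤ 2 * M * Real.log L := by
      refine hH.trans ?_
      have : 1 ≤ M * Real.log L := one_le_mul_of_one_le_of_one_le hM1 hLL
      linarith
    have h6 : C2 * X * Λ ^ (b + 1) * (∑ a ∈ range A, 1 / ((a : ℝ) + 1)) ≤
        C2 * (2 * M / δ) ^ (b + 1) * (2 * M) * W := by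
      calc C2 * X * Λ ^ (b + 1) * (∑ a ∈ range A, 1 / ((a : ℝ) + 1))
          ≤ C2 * X * Λ ^ (b + 1) * (2 * M * Real.log L) := by gcongr
        _ = C2 * (2 * M / δ) ^ (b + 1) * (2 * M) * (X * ((Real.log L) ^ (b + 2) / L ^ (b + 1))) :=
            aux5 b hL0 hδ0
        _ ≤ C2 * (2 * M / δ) ^ (b + 1) * (2 * M) * (X * (L / L ^ (b + 1))) := by gcongr
        _ = C2 * (2 * M / δ) ^ (b + 1) * (2 * M) * W := by rw [aux2 b hL0]
    linarith
  have s3 : ∑ a ∈ range T, m3 a ≤ (4 + 16) * W := by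
    have hH := harm_le T
    have h1 : ∑ a ∈ range T, m3 a = 2 * X / Real.sqrt A * (∑ a ∈ range T, 1 / ((a : ℝ) + 1)) +
        T * (2 * Real.sqrt ((T : ℝ) + 2)) := by
      rw [hm3, sum_add_distrib, ← mul_sum, sum_const, card_range, nsmul_eq_mul]
    rw [h1]
    have hZZ : Z * 3 ≤ Z * Z := mul_le_mul_of_nonneg_left hZ3 (by linarith)
    have hTX : (T : ℝ) ≤ X := by linarith
    have h2 : ∑ a ∈ range T, 1 / ((a : ℝ) + 1) ≤ 2 * L := by
      have : Real.log T ≤ L := Real.log_le_log (by exact_mod_cast hT0) hTX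
      linarith
    have h3 : 2 * X / Real.sqrt A * (∑ a ∈ range T, 1 / ((a : ℝ) + 1)) ≤ 4 * W := by
      calc 2 * X / Real.sqrt A * (∑ a ∈ range T, 1 / ((a : ℝ) + 1))
          ≤ 2 * X / L ^ (b + 1) * (2 * L) := by gcongr
        _ = 4 * W := aux3 b hL0
    have h4 : (T : ℝ) * (2 * Real.sqrt ((T : ℝ) + 2)) ≤ 16 * W := by
      have h5 : Real.sqrt ((T : ℝ) + 2) ≤ 2 * Z := by
        rw [Real.sqrt_le_left (by positivity)]
        have : (2 * Z) ^ 2 = 4 * (Z * Z) := by ring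
        rw [this]
        linarith
      have h6 : (T : ℝ) ≤ 2 * Z := by linarith
      have h7 : (T : ℝ) * (2 * Real.sqrt ((T : ℝ) + 2)) ≤ 8 * (Z * Z) := by
        calc (T : ℝ) * (2 * Real.sqrt ((T : ℝ) + 2)) ≤ (2 * Z) * (2 * (2 * Z)) := by gcongr
          _ = 8 * (Z * Z) := by ring
      have h8 : Z * Z ≤ W := by
        apply hLbW
        calc Z * Z * L ^ b ≤ Z * Z * Z := by gcongr
          _ ≤ Z * Z * Z * Z := le_mul_of_one_le_right (by positivity) (by linarith)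
          _ = X := hZ4
      linarith
    linarith
  calc ∑ a ∈ Icc b X, ((GG X r a).card : ℝ) ≤ m1 + ∑ a ∈ range A, m2 a + ∑ a ∈ range T, m3 a := hsum
    _ ≤ _ := by
      have : ((C1 * (2 * Real.log (b + 1 : ℕ) / δ) ^ b + 1) + (C2 * (2 * M / δ) ^ (b + 1) * (2 * M) + 2) +
        (4 + 16)) * W = (C1 * (2 * Real.log (b + 1 : ℕ) / δ) ^ b + 1) * W +
          (C2 * (2 * M / δ) ^ (b + 1) * (2 * M) + 2) * W + (4 + 16) * W := by ring
      rw [this]
      linarith

theorem fixed_large (ε : ℝ) (hε : 0 < ε) (hε4 : ε ≤ 1 / 4) (b : ℕ) (hb : 1 ≤ b) :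
    ∃ (K : ℝ) (X₀ : ℕ), 0 < K ∧ ∀ X : ℕ, X₀ ≤ X → ∀ r : ℕ, (X : ℝ) ^ ε ≤ r → r ≤ X →
      ((FF X r b).card : ℝ) ≤ K * (X / (Real.log X) ^ b) := by
  obtain ⟨K, X₀, hK, h⟩ := sum_large ε hε hε4 b hb
  refine ⟨K, X₀ + 1, hK, fun X hX r hr hrX => le_trans ?_ (h X (by omega) r hr hrX)⟩
  have hX1 : (1 : ℝ) ≤ X := by exact_mod_cast (by omega : 1 ≤ X)
  have hr1 : (1 : ℝ) ≤ r := (Real.one_le_rpow hX1 hε.le).trans hr
  exact_mod_cast FF_le (by exact_mod_cast hr1) hb

end Pool.Agent.Helper59K9.St
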