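import Pool.Agent.Helper59K9.St.Cnt3

set_option autoImplicit false
set_option maxHeartbeats 4000000

namespace Pool.Agent.Helper59K9.St
open Finset
open Pool.Agent.H895R3.NK (ev_log')
open Pool.Agent.R60.Steiner (IsSteiner DivCond NoCarry Red divCond_iff_red noCarry_of_red
  divCond_of_isSteiner)

lemma absorb (k b X₀ : ℕ) (K : ℝ) : ∃ K' : ℝ, 0 < K' ∧ K ≤ K' ∧ ∀ X : ℕ, 2 ≤ X → X < X₀ →
    (X : ℝ) ^ (k + 1) ≤ K' * ((X : ℝ) ^ k / (Real.log X) ^ b) := by
  refine ⟨max K (max 1 (X₀ * (Real.log X₀) ^ b)), ?_, le_max_left _ _, fun X h2 hX => ?_⟩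
  · exact lt_of_lt_of_le one_pos ((le_max_left _ _).trans (le_max_right _ _))
  have hXr : (2 : ℝ) ≤ X := by exact_mod_cast h2
  have hl : 0 < Real.log X := Real.log_pos (by linarith)
  have hXX : (X : ℝ) ≤ X₀ := by exact_mod_cast hX.le
  have hll : Real.log X ≤ Real.log X₀ := Real.log_le_log (by linarith) hXX
  have h1 : X₀ * (Real.log X₀) ^ b ≤ max K (max 1 (X₀ * (Real.log X₀) ^ b)) :=
    (le_max_right _ _).trans (le_max_right _ _)
  refine le_trans ?_ (mul_le_mul_of_nonneg_right h1 (by positivity))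
  rw [mul_assoc]
  have h3 : (1 : ℝ) ≤ (Real.log X₀) ^ b / (Real.log X) ^ b := by
    rw [one_le_div (by positivity)]
    exact pow_le_pow_left₀ hl.le hll b
  calc (X : ℝ) ^ (k + 1) = X * (X ^ k * 1) := by ring
    _ ≤ X₀ * (X ^ k * ((Real.log X₀) ^ b / (Real.log X) ^ b)) := by gcongr
    _ = _ := by ring

/-- The number of pairs `(n, q)`, for each `r ≥ X ^ ε`. -/
theorem fixedR (ε : ℝ) (hε : 0 < ε) (b : ℕ) (hb : 1 ≤ b) : ∃ K : ℝ, 0 < K ∧
    ∀ X : ℕ, 2 ≤ X → ∀ r : ℕ, (X : ℝ) ^ ε ≤ r →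
      ((FF X r b).card : ℝ) ≤ K * (X / (Real.log X) ^ b) := by
  classical
  obtain ⟨K, X₀, hK, h⟩ := fixed_large (min ε (1 / 4)) (lt_min hε (by norm_num)) (min_le_right _ _) b hb
  obtain ⟨K', hK', hKK, h'⟩ := absorb 1 b X₀ K
  refine ⟨K', hK', fun X hX r hr => ?_⟩
  have hXr : (2 : ℝ) ≤ X := by exact_mod_cast hX
  have hl : 0 < Real.log X := Real.log_pos (by linarith)
  rcases Nat.lt_or_ge X r with hrX | hrX
  · have : FF X r b = ∅ := by
      unfold FF
      rw [filter_eq_empty_iff]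
      rintro ⟨n, q⟩ hz ⟨h1, -⟩
      rw [mem_product, mem_Icc, mem_Icc] at hz
      simp only at hz h1
      omega
    rw [this, card_empty, Nat.cast_zero]
    positivity
  rcases Nat.lt_or_ge X X₀ with hX0 | hX0
  · have h1 : (FF X r b).card ≤ X * X := by
      unfold FF
      refine (card_filter_le _ _).trans ?_
      rw [card_product, Nat.card_Icc]
      simp
    have h2 := h' X hX hX0
    rw [pow_one] at h2
    refine le_trans ?_ h2
    calc ((FF X r b).card : ℝ) ≤ ((X * X : ℕ) : ℝ) := by exact_mod_cast h1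
      _ = _ := by push_cast; ring
  · have h1 : (X : ℝ) ^ (min ε (1 / 4)) ≤ r :=
      (Real.rpow_le_rpow_of_exponent_le (by linarith) (min_le_left _ _)).trans hr
    refine (h X hX0 r h1 hrX).trans ?_
    exact mul_le_mul_of_nonneg_right hKK (by positivity)

open Classical in
/-- the triples `(n, q, r)` -/
noncomputable def TT (X b : ℕ) : Finset (ℕ × ℕ × ℕ) :=
  (Icc 1 X ×ˢ Icc 1 X ×ˢ Icc 1 X).filter
    (fun z => z.2.2 + b ≤ z.2.1 ∧ z.2.1 < z.1 ∧ DivCond z.1 z.2.1 z.2.2)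

lemma TT_le (X b : ℕ) : (TT X b).card ≤ ∑ r ∈ Icc 1 X, (FF X r b).card := by
  classical
  have hsub : TT X b ⊆ (Icc 1 X).biUnion (fun r => (FF X r b).image (fun z => (z.1, z.2, r))) := by
    rintro ⟨n, q, r⟩ hz
    unfold TT at hz
    rw [mem_filter, mem_product, mem_product] at hz
    rw [mem_biUnion]
    refine ⟨r, hz.1.2.2, ?_⟩
    rw [mem_image]
    refine ⟨(n, q), ?_, rfl⟩
    unfold FF
    rw [mem_filter, mem_product]
    exact ⟨⟨hz.1.1, hz.1.2.1⟩, hz.2⟩
  calc _ ≤ _ := card_le_card hsub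
    _ ≤ _ := card_biUnion_le
    _ ≤ _ := sum_le_sum fun a _ => card_image_le

lemma FF_triv {X r b : ℕ} (hX : 1 ≤ X) (hr : 1 ≤ r) (hb : 1 ≤ b) :
    ((FF X r b).card : ℝ) ≤ X * (2 + Real.log X) := by
  have h1 : ((FF X r b).card : ℝ) ≤ ∑ a ∈ Icc b X, ((GG X r a).card : ℝ) := by
    exact_mod_cast FF_le hr hb
  have hXr : (1 : ℝ) ≤ X := by exact_mod_cast hX
  calc ((FF X r b).card : ℝ) ≤ ∑ a ∈ Icc b X, ((GG X r a).card : ℝ) := h1
    _ ≤ ∑ a ∈ Icc b X, (X : ℝ) * (1 / ((a : ℝ) + 1)) := by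
        apply sum_le_sum
        intro a _
        rw [mul_one_div]
        exact GG_le X r a
    _ ≤ ∑ a ∈ range (X + 1), (X : ℝ) * (1 / ((a : ℝ) + 1)) := by
        apply sum_le_sum_of_subset_of_nonneg
        · intro a ha
          rw [mem_Icc] at ha
          rw [mem_range]
          omega
        · intro a _ _
          have : (0 : ℝ) < (a : ℝ) + 1 := by positivity
          positivity
    _ = X * (∑ a ∈ range X, (1 / ((a : ℝ) + 1)) + 1 / ((X : ℝ) + 1)) := by
        rw [← mul_sum, sum_range_succ]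
    _ ≤ X * ((1 + Real.log X) + 1) := by
        have h2 := harm_le X
        have h3 : 1 / ((X : ℝ) + 1) ≤ 1 := by
          rw [div_le_one (by linarith)]
          linarith
        gcongr
    _ = _ := by ring

/-- The number of triples with `q - r ≥ b`. -/
theorem total (b : ℕ) (hb : 1 ≤ b) : ∃ K : ℝ, 0 < K ∧ ∀ X : ℕ, 2 ≤ X →
    ((TT X b).card : ℝ) ≤ K * ((X : ℝ) ^ 2 / (Real.log X) ^ b) := by
  classical
  obtain ⟨K, hK, h⟩ := fixedR (1 / 2) (by norm_num) b hb
  obtain ⟨X₀, hX₀⟩ := ev_log' (1 / 2) (by norm_num) (b + 1) 2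
  obtain ⟨K', hK', hKK, h'⟩ := absorb 2 b X₀ (K + 2)
  refine ⟨K', hK', fun X hX => ?_⟩
  have hXr : (2 : ℝ) ≤ X := by exact_mod_cast hX
  have hl : 0 < Real.log X := Real.log_pos (by linarith)
  rcases Nat.lt_or_ge X X₀ with hX0 | hX0
  · have h1 : (TT X b).card ≤ X * (X * X) := by
      unfold TT
      refine (card_filter_le _ _).trans ?_
      rw [card_product, card_product, Nat.card_Icc]
      simp
    refine le_trans ?_ (h' X hX hX0)
    calc ((TT X b).card : ℝ) ≤ ((X * (X * X) : ℕ) : ℝ) := by exact_mod_cast h1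
      _ = _ := by push_cast; ring
  · obtain ⟨-, hl2, hl1, -, hlb⟩ := hX₀ X hX0
    set L := Real.log X with hL
    set s := Nat.sqrt X with hs
    have hterm : ∀ r ∈ Icc 1 X, ((FF X r b).card : ℝ) ≤
        (if r ∈ Icc 1 s then X * (2 + L) else 0) + K * (X / L ^ b) := by
      intro r hr
      rw [mem_Icc] at hr
      by_cases hrs : r ∈ Icc 1 s
      · rw [if_pos hrs]
        have h1 := FF_triv (X := X) (r := r) (b := b) (by omega) hr.1 hb
        have h2 : 0 ≤ K * (X / L ^ b) := by positivity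
        linarith
      · rw [if_neg hrs, zero_add]
        apply h X hX r
        have hsr : s < r := by
          by_contra hc
          exact hrs (mem_Icc.2 ⟨hr.1, by omega⟩)
        have h3 : X < r ^ 2 := Nat.sqrt_lt'.1 hsr
        rw [← Real.sqrt_eq_rpow]
        rw [Real.sqrt_le_left (by positivity)]
        exact_mod_cast h3.le
    have h1 : ((TT X b).card : ℝ) ≤ ∑ r ∈ Icc 1 X, ((FF X r b).card : ℝ) := by
      exact_mod_cast TT_le X b
    have h2 : ∑ r ∈ Icc 1 X, ((FF X r b).card : ℝ) ≤ s * (X * (2 + L)) + X * (K * (X / L ^ b)) := by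
      refine (sum_le_sum hterm).trans ?_
      rw [sum_add_distrib, sum_const, Nat.card_Icc, nsmul_eq_mul, ← sum_filter, sum_const,
        nsmul_eq_mul]
      apply add_le_add
      · apply mul_le_mul_of_nonneg_right _ (by positivity)
        have : ((Icc 1 X).filter (fun r => r ∈ Icc 1 s)).card ≤ (Icc 1 s).card := by
          apply card_le_card
          intro r hr
          exact (mem_filter.1 hr).2
        rw [Nat.card_Icc] at this
        exact_mod_cast this
      · simp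
    have hsX : (s : ℝ) ≤ (X : ℝ) ^ ((1 : ℝ) / 2) := by
      rw [← Real.sqrt_eq_rpow]
      exact Real.nat_sqrt_le_real_sqrt
    have hsq : (X : ℝ) ^ ((1 : ℝ) / 2) * (X : ℝ) ^ ((1 : ℝ) / 2) = X := by
      rw [← Real.sqrt_eq_rpow]
      exact Real.mul_self_sqrt (by linarith)
    have h3 : (s : ℝ) * (X * (2 + L)) ≤ 2 * ((X : ℝ) ^ 2 / L ^ b) := by
      rw [← mul_div_assoc, le_div_iff₀ (by positivity)]
      calc (s : ℝ) * (X * (2 + L)) * L ^ b ≤ (X : ℝ) ^ ((1 : ℝ) / 2) * (X * (2 * L)) * L ^ b := by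
            have : 2 + L ≤ 2 * L := by linarith
            gcongr
        _ = 2 * X * ((X : ℝ) ^ ((1 : ℝ) / 2) * L ^ (b + 1)) := by ring
        _ ≤ 2 * X * ((X : ℝ) ^ ((1 : ℝ) / 2) * (X : ℝ) ^ ((1 : ℝ) / 2)) := by gcongr
        _ = 2 * (X : ℝ) ^ 2 := by rw [hsq]; ring
    calc ((TT X b).card : ℝ) ≤ s * (X * (2 + L)) + X * (K * (X / L ^ b)) := h1.trans h2
      _ ≤ 2 * ((X : ℝ) ^ 2 / L ^ b) + K * ((X : ℝ) ^ 2 / L ^ b) := by
          apply add_le_add h3
          apply le_of_eq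
          ring
      _ = (K + 2) * ((X : ℝ) ^ 2 / L ^ b) := by ring
      _ ≤ _ := mul_le_mul_of_nonneg_right hKK (by positivity)

open Classical in
/-- All but few triples have `q = r + 1` and `n - r` prime. -/
theorem rare : ∃ K : ℝ, 0 < K ∧ ∀ X : ℕ, 2 ≤ X →
    (((TT X 1).filter (fun z => ¬ (z.2.1 = z.2.2 + 1 ∧ (z.1 - z.2.2).Prime))).card : ℝ) ≤
      K * ((X : ℝ) ^ 2 / (Real.log X) ^ 2) := by
  obtain ⟨K, hK, h⟩ := total 2 (by norm_num)
  obtain ⟨X₀, hX₀⟩ := ev_log' (1 / 2) (by norm_num) 2 2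
  obtain ⟨K', hK', hKK, h'⟩ := absorb 2 2 X₀ (K + 1)
  refine ⟨K', hK', fun X hX => ?_⟩
  have hXr : (2 : ℝ) ≤ X := by exact_mod_cast hX
  have hl : 0 < Real.log X := Real.log_pos (by linarith)
  rcases Nat.lt_or_ge X X₀ with hX0 | hX0
  · have h1 : ((TT X 1).filter (fun z => ¬ (z.2.1 = z.2.2 + 1 ∧ (z.1 - z.2.2).Prime))).card ≤
        X * (X * X) := by
      refine (card_filter_le _ _).trans ?_
      unfold TT
      refine (card_filter_le _ _).trans ?_
      rw [card_product, card_product, Nat.card_Icc]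
      simp
    refine le_trans ?_ (h' X hX hX0)
    calc _ ≤ ((X * (X * X) : ℕ) : ℝ) := by exact_mod_cast h1
      _ = _ := by push_cast; ring
  · obtain ⟨-, hl2, hl1, -, hlb⟩ := hX₀ X hX0
    set L := Real.log X with hL
    set s := Nat.sqrt X with hs
    have hsub : (TT X 1).filter (fun z => ¬ (z.2.1 = z.2.2 + 1 ∧ (z.1 - z.2.2).Prime)) ⊆
        TT X 2 ∪ (Icc 1 X ×ˢ Icc 1 s).image (fun z => (z.1, z.2 + 1, z.2)) := by
      rintro ⟨n, q, r⟩ hz
      rw [mem_filter] at hz
      obtain ⟨hz1, hz2⟩ := hz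
      simp only at hz2
      unfold TT at hz1
      rw [mem_filter, mem_product, mem_product] at hz1
      obtain ⟨⟨hn, hq, hr⟩, h1, h2, hD⟩ := hz1
      simp only at hn hq hr h1 h2 hD
      rw [mem_union]
      rcases Nat.lt_or_ge q (r + 2) with hq2 | hq2
      · right
        have hqr : q = r + 1 := by omega
        subst hqr
        have hnp : ¬ (n - r).Prime := fun hp => hz2 ⟨rfl, hp⟩
        rw [mem_image]
        refine ⟨(n, r), ?_, rfl⟩
        rw [mem_product]
        refine ⟨hn, ?_⟩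
        rw [mem_Icc] at hn hr ⊢
        refine ⟨hr.1, ?_⟩
        have hR := (divCond_iff_red (by omega) h2.le).1 hD
        have e1 : r + 1 - r = 1 := by omega
        rw [e1] at hR
        have hm2 : 2 ≤ n - r := by omega
        have hmf := Nat.minFac_prime (n := n - r) (by omega)
        have hmd := Nat.minFac_dvd (n - r)
        have hrm : r + 1 < (n - r).minFac := by
          by_contra hc
          have h5 := not_dvd hR hmf hmf.one_lt (by omega) (j := 1) le_rfl le_rfl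
          apply h5
          have : n - (r + 1) + 1 = n - r := by omega
          rw [this]
          exact hmd
        have h6 := Nat.minFac_sq_le_self (n := n - r) (by omega) hnp
        rw [Nat.le_sqrt']
        calc r ^ 2 ≤ (n - r).minFac ^ 2 := Nat.pow_le_pow_left (by omega) 2
          _ ≤ n - r := h6
          _ ≤ X := by omega
      · left
        unfold TT
        rw [mem_filter, mem_product, mem_product]
        exact ⟨⟨hn, hq, hr⟩, hq2, h2, hD⟩
    have h1 := (card_le_card hsub).trans ((card_union_le _ _).trans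
      (Nat.add_le_add_left card_image_le _))
    rw [card_product, Nat.card_Icc, Nat.card_Icc, Nat.add_sub_cancel, Nat.add_sub_cancel] at h1
    have hsX : (s : ℝ) ≤ (X : ℝ) ^ ((1 : ℝ) / 2) := by
      rw [← Real.sqrt_eq_rpow]
      exact Real.nat_sqrt_le_real_sqrt
    have hsq : (X : ℝ) ^ ((1 : ℝ) / 2) * (X : ℝ) ^ ((1 : ℝ) / 2) = X := by
      rw [← Real.sqrt_eq_rpow]
      exact Real.mul_self_sqrt (by linarith)
    have h3 : (X : ℝ) * s ≤ (X : ℝ) ^ 2 / L ^ 2 := by
      rw [le_div_iff₀ (by positivity)]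
      calc (X : ℝ) * s * L ^ 2 ≤ X * (X : ℝ) ^ ((1 : ℝ) / 2) * (X : ℝ) ^ ((1 : ℝ) / 2) := by gcongr
        _ = (X : ℝ) ^ 2 := by rw [mul_assoc, hsq]; ring
    calc _ ≤ (((TT X 2).card + X * s : ℕ) : ℝ) := by exact_mod_cast h1
      _ = ((TT X 2).card : ℝ) + X * s := by push_cast; rfl
      _ ≤ K * ((X : ℝ) ^ 2 / L ^ 2) + (X : ℝ) ^ 2 / L ^ 2 := add_le_add (h X hX) h3
      _ = (K + 1) * ((X : ℝ) ^ 2 / L ^ 2) := by ring
      _ ≤ _ := mul_le_mul_of_nonneg_right hKK (by positivity)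

end Pool.Agent.Helper59K9.St
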