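import Pool.Agent.Helper59K9.St.Cnt4
import Pool.Agent.R98.PrimeSum

set_option autoImplicit false
set_option maxHeartbeats 4000000

namespace Pool.Agent.Helper59K9.St
open Finset Filter Topology
open Pool.Agent.H895R3.NK (ev_log')
open Pool.Agent.R98 (pnt primeCounting_eq)
open Pool.Agent.R60.Steiner (IsSteiner DivCond NoCarry Red divCond_iff_red noCarry_of_red
  divCond_of_isSteiner)

/-- the prime number theorem, uniformly below `X` -/
lemma pi_unif (η : ℝ) (hη : 0 < η) (hη1 : η ≤ 1) : ∃ X₀ : ℕ, ∀ X : ℕ, X₀ ≤ X → ∀ t : ℕ, t ≤ X →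
    |(Nat.primeCounting t : ℝ) * Real.log X - t| ≤ η * X := by
  set κ : ℝ := η / 8 with hκ
  have hκ0 : 0 < κ := by positivity
  have hκ1 : κ ≤ 1 := by rw [hκ]; linarith
  have h1 : ∀ᶠ n : ℕ in atTop, |(Nat.primeCounting n : ℝ) * Real.log n / n - 1| < η / 4 := by
    have := (Metric.tendsto_nhds.1 pnt) (η / 4) (by positivity)
    filter_upwards [this] with n hn
    rwa [Real.dist_eq] at hn
  have hc : Tendsto (fun N : ℕ => (N : ℝ)) atTop atTop := tendsto_natCast_atTop_atTop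
  have h2 : ∀ᶠ n : ℕ in atTop, 8 * Real.log (1 / κ) / η ≤ Real.log n :=
    (Real.tendsto_log_atTop.comp hc).eventually_ge_atTop _
  obtain ⟨T₀, hT₀⟩ := eventually_atTop.1 (h1.and h2)
  have hlκ : 0 ≤ Real.log (1 / κ) := Real.log_nonneg (by rw [le_div_iff₀ hκ0]; linarith)
  -- the main range
  have hmain : ∀ X t : ℕ, 2 ≤ t → T₀ ≤ t → t ≤ X → κ * X ≤ t →
      |(Nat.primeCounting t : ℝ) * Real.log X - t| ≤ η / 2 * X := by
    intro X t ht2 htT htX htκ
    obtain ⟨a1, a2⟩ := hT₀ t htT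
    have ht0 : (0 : ℝ) < t := by exact_mod_cast (by omega : 0 < t)
    have htX' : (t : ℝ) ≤ X := by exact_mod_cast htX
    have hX0 : (0 : ℝ) < X := lt_of_lt_of_le ht0 htX'
    have hlt : 0 < Real.log t := Real.log_pos (by exact_mod_cast (by omega : 1 < t))
    have hπ0 : (0 : ℝ) ≤ Nat.primeCounting t := by positivity
    have b1 : |(Nat.primeCounting t : ℝ) * Real.log t - t| ≤ η / 4 * t := by
      have e : (Nat.primeCounting t : ℝ) * Real.log t - t =
          ((Nat.primeCounting t : ℝ) * Real.log t / t - 1) * t := by field_simp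
      rw [e, abs_mul, abs_of_pos ht0]
      exact mul_le_mul_of_nonneg_right a1.le ht0.le
    have b2 : Real.log X - Real.log t ≤ Real.log (1 / κ) := by
      rw [← Real.log_div hX0.ne' ht0.ne']
      apply Real.log_le_log (by positivity)
      rw [div_le_div_iff₀ ht0 hκ0]
      linarith
    have b3 : 0 ≤ Real.log X - Real.log t := by
      have := Real.log_le_log ht0 htX'
      linarith
    have b4 : (Nat.primeCounting t : ℝ) * Real.log t ≤ 2 * t := by
      have := (abs_le.1 b1).2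
      nlinarith
    have b5 : (Nat.primeCounting t : ℝ) * (Real.log X - Real.log t) ≤ η / 4 * X := by
      have c1 : (Nat.primeCounting t : ℝ) * (Real.log X - Real.log t) ≤
          (Nat.primeCounting t : ℝ) * Real.log (1 / κ) := by gcongr
      have c2 : Real.log (1 / κ) ≤ η / 8 * Real.log t := by
        rw [div_le_iff₀ hη] at a2
        linarith
      calc (Nat.primeCounting t : ℝ) * (Real.log X - Real.log t)
          ≤ (Nat.primeCounting t : ℝ) * Real.log (1 / κ) := c1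
        _ ≤ (Nat.primeCounting t : ℝ) * (η / 8 * Real.log t) := by gcongr
        _ = η / 8 * ((Nat.primeCounting t : ℝ) * Real.log t) := by ring
        _ ≤ η / 8 * (2 * X) := by
            apply mul_le_mul_of_nonneg_left _ (by positivity)
            linarith
        _ = η / 4 * X := by ring
    have b6 : 0 ≤ (Nat.primeCounting t : ℝ) * (Real.log X - Real.log t) := mul_nonneg hπ0 b3
    have b7 : (Nat.primeCounting t : ℝ) * Real.log X - t =
        ((Nat.primeCounting t : ℝ) * Real.log t - t) +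
          (Nat.primeCounting t : ℝ) * (Real.log X - Real.log t) := by ring
    have b8 : η / 4 * t ≤ η / 4 * X := by gcongr
    have b9 := abs_le.1 b1
    rw [b7, abs_le]
    constructor <;> linarith
  refine ⟨⌈((T₀ : ℝ) + 8) / κ⌉₊ + 1, fun X hX t htX => ?_⟩
  have hXκ : (T₀ : ℝ) + 8 ≤ κ * X := by
    have h3 : ((T₀ : ℝ) + 8) / κ ≤ X :=
      (Nat.le_ceil _).trans ((Nat.cast_le (α := ℝ)).2 (by omega))
    rw [div_le_iff₀ hκ0] at h3
    linarith
  have hX1 : 1 ≤ X := by omega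
  have hXr : (1 : ℝ) ≤ X := by exact_mod_cast hX1
  have hT00 : (0 : ℝ) ≤ T₀ := by positivity
  rcases le_or_gt (κ * X) t with h3 | h3
  · have h4 : T₀ + 8 ≤ t := by
      have : ((T₀ + 8 : ℕ) : ℝ) ≤ t := by push_cast; linarith
      exact_mod_cast this
    refine (hmain X t (by omega) (by omega) htX h3).trans ?_
    have : 0 ≤ η * X := by positivity
    linarith
  · set t₁ : ℕ := ⌈κ * X⌉₊ with ht₁
    have d1 : κ * X ≤ t₁ := Nat.le_ceil _
    have d2 : (t₁ : ℝ) < κ * X + 1 := Nat.ceil_lt_add_one (by positivity)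
    have d3 : t₁ ≤ X := by
      rw [ht₁, Nat.ceil_le]
      nlinarith
    have d4 : T₀ + 8 ≤ t₁ := by
      have : ((T₀ + 8 : ℕ) : ℝ) ≤ t₁ := by push_cast; linarith
      exact_mod_cast this
    have d5 := (abs_le.1 (hmain X t₁ (by omega) (by omega) d3 d1)).2
    have d6 : t ≤ t₁ := by
      have : (t : ℝ) ≤ t₁ := by linarith
      exact_mod_cast this
    have d7 : (Nat.primeCounting t : ℝ) ≤ Nat.primeCounting t₁ := by
      exact_mod_cast Nat.monotone_primeCounting d6
    have hlX : 0 ≤ Real.log X := Real.log_nonneg hXr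
    have d8 : (Nat.primeCounting t : ℝ) * Real.log X ≤ Nat.primeCounting t₁ * Real.log X := by gcongr
    have d9 : 0 ≤ (Nat.primeCounting t : ℝ) * Real.log X := by positivity
    have d10 : (0 : ℝ) ≤ t := by positivity
    have d11 : κ * X = η / 8 * X := by rw [hκ]
    have d12 : 8 ≤ κ * X := by linarith
    rw [abs_le]
    constructor
    · have : 0 ≤ η * X := by positivity
      linarith
    · linarith

open Classical in
/-- the triples with `q = r + 1`, `n - r` prime -/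
noncomputable def PP (X : ℕ) : Finset (ℕ × ℕ × ℕ) :=
  (TT X 1).filter (fun z => z.2.1 = z.2.2 + 1 ∧ (z.1 - z.2.2).Prime)

lemma PP_eq (X : ℕ) (hX : 1 ≤ X) : PP X = ((Icc 1 ((X - 1) / 2)).sigma
    (fun r => (Ioc (r + 1) (X - r)).filter Nat.Prime)).image
      (fun z : (_ : ℕ) × ℕ => (z.2 + z.1, z.1 + 1, z.1)) := by
  classical
  ext ⟨n, q, r⟩
  unfold PP TT
  rw [mem_filter, mem_filter, mem_product, mem_product, mem_image]
  simp only [mem_Icc]
  constructor
  · rintro ⟨⟨⟨⟨hn1, hnX⟩, ⟨hq1, hqX⟩, hr1, hrX⟩, h1, h2, hD⟩, hqr, hp⟩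
    subst hqr
    have hR := (divCond_iff_red (by omega) h2.le).1 hD
    have e1 : r + 1 - r = 1 := by omega
    rw [e1] at hR
    have hrm : r + 1 < n - r := by
      by_contra hc
      have h5 := not_dvd hR hp hp.one_lt (by omega) (j := 1) le_rfl le_rfl
      apply h5
      have : n - (r + 1) + 1 = n - r := by omega
      rw [this]
    refine ⟨⟨r, n - r⟩, ?_, ?_⟩
    · rw [mem_sigma, mem_filter, mem_Ioc, mem_Icc]
      exact ⟨⟨hr1, by simp only; omega⟩, ⟨hrm, by simp only; omega⟩, hp⟩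
    · simp only [Prod.mk.injEq, and_true]
      omega
  · rintro ⟨⟨r', p⟩, hz, he⟩
    rw [mem_sigma, mem_filter, mem_Ioc, mem_Icc] at hz
    simp only at hz
    obtain ⟨⟨h1, h2⟩, ⟨h3, h4⟩, hp⟩ := hz
    simp only [Prod.mk.injEq] at he
    obtain ⟨rfl, rfl, rfl⟩ := he
    have e1 : r' + 1 - r' = 1 := by omega
    have e2 : p + r' - (r' + 1) = p - 1 := by omega
    have e3 : p - 1 + 1 = p := by omega
    have e4 : p + r' - r' = p := by omega
    refine ⟨⟨⟨⟨by omega, by omega⟩, ⟨by omega, by omega⟩, by omega, by omega⟩, le_rfl, by omega, ?_⟩, rfl, ?_⟩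
    · rw [divCond_iff_red (by omega) (by omega), e1, e2]
      exact red_one_of_prime (by rw [e3]; exact hp) (by omega)
    · rw [e4]; exact hp

lemma PP_card (X : ℕ) (hX : 1 ≤ X) : ((PP X).card : ℝ) =
    ∑ r ∈ Icc 1 ((X - 1) / 2), ((Nat.primeCounting (X - r) : ℝ) - Nat.primeCounting (r + 1)) := by
  classical
  rw [PP_eq X hX, card_image_of_injOn, card_sigma]
  · push_cast
    apply sum_congr rfl
    intro r hr
    rw [mem_Icc] at hr
    have hle : r + 1 ≤ X - r := by omega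
    have h1 : (Icc 1 (X - r)).filter Nat.Prime =
        (Icc 1 (r + 1)).filter Nat.Prime ∪ (Ioc (r + 1) (X - r)).filter Nat.Prime := by
      ext p
      simp only [mem_union, mem_filter, mem_Icc, mem_Ioc]
      constructor
      · rintro ⟨⟨a1, a2⟩, a3⟩
        rcases Nat.lt_or_ge (r + 1) p with h | h
        · exact Or.inr ⟨⟨h, a2⟩, a3⟩
        · exact Or.inl ⟨⟨a1, h⟩, a3⟩
      · rintro (⟨⟨a1, a2⟩, a3⟩ | ⟨⟨a1, a2⟩, a3⟩)
        · exact ⟨⟨a1, by omega⟩, a3⟩
        · exact ⟨⟨by omega, a2⟩, a3⟩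
    have h2 : Disjoint ((Icc 1 (r + 1)).filter Nat.Prime) ((Ioc (r + 1) (X - r)).filter Nat.Prime) := by
      rw [disjoint_left]
      intro p hp hp'
      rw [mem_filter, mem_Icc] at hp
      rw [mem_filter, mem_Ioc] at hp'
      omega
    rw [primeCounting_eq, primeCounting_eq, h1, card_union_of_disjoint h2]
    push_cast
    ring
  · rintro ⟨r, p⟩ _ ⟨r', p'⟩ _ h
    simp only [Prod.mk.injEq] at h
    obtain ⟨h1, -, h3⟩ := h
    subst h3
    have : p = p' := by omega
    subst this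
    rfl

lemma PP_asymp (η : ℝ) (hη : 0 < η) (hη1 : η ≤ 1) : ∃ X₀ : ℕ, ∀ X : ℕ, X₀ ≤ X →
    |((PP X).card : ℝ) * Real.log X - (X : ℝ) ^ 2 / 4| ≤ 2 * η * (X : ℝ) ^ 2 := by
  obtain ⟨X₀, hX₀⟩ := pi_unif η hη hη1
  refine ⟨X₀ + ⌈1 / η⌉₊ + 2, fun X hX => ?_⟩
  have hX1 : 1 ≤ X := by omega
  have hXr : (1 : ℝ) ≤ X := by exact_mod_cast hX1
  set R := (X - 1) / 2 with hR
  have hXη : 1 ≤ η * X := by
    have h3 : 1 / η ≤ X := (Nat.le_ceil _).trans (by exact_mod_cast (by omega))
    rw [div_le_iff₀ hη] at h3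
    linarith
  have hR1 : 2 * (R : ℝ) ≤ X - 1 := by
    have : 2 * R + 1 ≤ X := by omega
    have h' : ((2 * R + 1 : ℕ) : ℝ) ≤ X := by exact_mod_cast this
    push_cast at h'
    linarith
  have hR2 : (X : ℝ) - 2 ≤ 2 * R := by
    have : X ≤ 2 * R + 2 := by omega
    have h' : (X : ℝ) ≤ ((2 * R + 2 : ℕ) : ℝ) := by exact_mod_cast this
    push_cast at h'
    linarith
  have hR0 : (0 : ℝ) ≤ R := by positivity
  have h1 : ((PP X).card : ℝ) * Real.log X - ∑ r ∈ Icc 1 R, ((X : ℝ) - 1 - 2 * r) =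
      ∑ r ∈ Icc 1 R, (((Nat.primeCounting (X - r) : ℝ) * Real.log X - ((X - r : ℕ) : ℝ)) -
        ((Nat.primeCounting (r + 1) : ℝ) * Real.log X - ((r + 1 : ℕ) : ℝ))) := by
    rw [PP_card X hX1, sum_mul, ← sum_sub_distrib]
    apply sum_congr rfl
    intro r hr
    rw [mem_Icc] at hr
    rw [Nat.cast_sub (by omega : r ≤ X)]
    push_cast
    ring
  have h2 : |((PP X).card : ℝ) * Real.log X - ∑ r ∈ Icc 1 R, ((X : ℝ) - 1 - 2 * r)| ≤
      η * (X : ℝ) ^ 2 := by
    rw [h1]
    refine (abs_sum_le_sum_abs _ _).trans ?_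
    calc ∑ r ∈ Icc 1 R, |((Nat.primeCounting (X - r) : ℝ) * Real.log X - ((X - r : ℕ) : ℝ)) -
        ((Nat.primeCounting (r + 1) : ℝ) * Real.log X - ((r + 1 : ℕ) : ℝ))|
        ≤ ∑ r ∈ Icc 1 R, 2 * (η * X) := by
          apply sum_le_sum
          intro r hr
          rw [mem_Icc] at hr
          have b1 := abs_le.1 (hX₀ X (by omega) (X - r) (by omega))
          have b2 := abs_le.1 (hX₀ X (by omega) (r + 1) (by omega))
          rw [abs_le]
          constructor <;> linarith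
      _ = R * (2 * (η * X)) := by rw [sum_const, Nat.card_Icc, nsmul_eq_mul]; simp
      _ ≤ η * (X : ℝ) ^ 2 := by
          have h3 : 0 ≤ η * X := by positivity
          have h4 := mul_le_mul_of_nonneg_right hR1 h3
          nlinarith
  have h3 : ∑ r ∈ Icc 1 R, ((X : ℝ) - 1 - 2 * r) = R * (X - 2 - R) := by
    have : ∀ k : ℕ, ∑ r ∈ Icc 1 k, ((X : ℝ) - 1 - 2 * r) = k * (X - 2 - k) := by
      intro k
      induction k with
      | zero => simp
      | succ k ih =>
        rw [sum_Icc_succ_top (by omega), ih]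
        push_cast
        ring
    exact this R
  have h4 : |(R : ℝ) * (X - 2 - R) - (X : ℝ) ^ 2 / 4| ≤ η * (X : ℝ) ^ 2 := by
    have e : (R : ℝ) * (X - 2 - R) - (X : ℝ) ^ 2 / 4 = -(((X : ℝ) / 2 - R) ^ 2 + 2 * R) := by ring
    rw [e, abs_neg, abs_of_nonneg (by positivity)]
    have h5 : ((X : ℝ) / 2 - R) ^ 2 ≤ 1 := by
      rw [sq_le_one_iff_abs_le_one, abs_le]
      constructor <;> linarith
    have h6 : (X : ℝ) ≤ η * (X : ℝ) ^ 2 := by
      calc (X : ℝ) = 1 * X := (one_mul _).symm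
        _ ≤ η * X * X := by gcongr
        _ = η * (X : ℝ) ^ 2 := by ring
    linarith
  rw [h3] at h2
  have := abs_add_le (((PP X).card : ℝ) * Real.log X - R * (X - 2 - R)) (R * (X - 2 - R) - (X : ℝ) ^ 2 / 4)
  rw [sub_add_sub_cancel] at this
  linarith

/-- The number of triples with (D). -/
theorem asymp : Tendsto (fun X : ℕ => ((TT X 1).card : ℝ) * Real.log X / (X : ℝ) ^ 2) atTop
    (𝓝 (1 / 4)) := by
  classical
  obtain ⟨K, hK, hrare⟩ := rare
  rw [Metric.tendsto_atTop]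
  intro ε hε
  set η : ℝ := min (ε / 8) 1 with hη
  have hη0 : 0 < η := lt_min (by positivity) one_pos
  have hηε : η ≤ ε / 8 := min_le_left _ _
  obtain ⟨X₀, hX₀⟩ := PP_asymp η hη0 (min_le_right _ _)
  have hc : Tendsto (fun N : ℕ => Real.log N) atTop atTop :=
    Real.tendsto_log_atTop.comp tendsto_natCast_atTop_atTop
  obtain ⟨X₁, hX₁⟩ := eventually_atTop.1 (hc.eventually_ge_atTop (4 * K / ε + 1))
  refine ⟨X₀ + X₁ + 2, fun X hX => ?_⟩
  have h2 : 2 ≤ X := by omega
  have hXr : (2 : ℝ) ≤ X := by exact_mod_cast h2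
  have hX0 : (0 : ℝ) < X := by linarith
  have hl := hX₁ X (by omega)
  have hl0 : 0 < Real.log X := Real.log_pos (by linarith)
  have a1 := hX₀ X (by omega)
  have a2 := hrare X h2
  have a3 : (TT X 1).card = (PP X).card +
      ((TT X 1).filter (fun z => ¬ (z.2.1 = z.2.2 + 1 ∧ (z.1 - z.2.2).Prime))).card := by
    unfold PP
    exact (card_filter_add_card_filter_not _).symm
  set B : ℝ := (((TT X 1).filter (fun z => ¬ (z.2.1 = z.2.2 + 1 ∧ (z.1 - z.2.2).Prime))).card : ℝ) with hB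
  have hB0 : 0 ≤ B := by positivity
  have a4 : ((TT X 1).card : ℝ) = (PP X).card + B := by rw [a3]; push_cast; rfl
  have a5 : B * Real.log X ≤ ε / 4 * (X : ℝ) ^ 2 := by
    calc B * Real.log X ≤ K * ((X : ℝ) ^ 2 / (Real.log X) ^ 2) * Real.log X := by gcongr
      _ = K / Real.log X * (X : ℝ) ^ 2 := by field_simp
      _ ≤ ε / 4 * (X : ℝ) ^ 2 := by
          apply mul_le_mul_of_nonneg_right _ (by positivity)
          rw [div_le_iff₀ hl0]
          have : 4 * K / ε ≤ Real.log X := by linarith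
          rw [div_le_iff₀ hε] at this
          linarith
  have hX2 : 0 < (X : ℝ) ^ 2 := by positivity
  rw [Real.dist_eq]
  have e : ((TT X 1).card : ℝ) * Real.log X / (X : ℝ) ^ 2 - 1 / 4 =
      (((TT X 1).card : ℝ) * Real.log X - (X : ℝ) ^ 2 / 4) / (X : ℝ) ^ 2 := by
    field_simp
  rw [e, abs_div, abs_of_pos hX2, div_lt_iff₀ hX2, a4, add_mul]
  have a6 := abs_le.1 a1
  have a7 : 2 * η * (X : ℝ) ^ 2 ≤ ε / 4 * (X : ℝ) ^ 2 := by
    apply mul_le_mul_of_nonneg_right _ hX2.le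
    linarith
  have a8 : 0 ≤ B * Real.log X := by positivity
  have a9 : 0 < ε * (X : ℝ) ^ 2 := by positivity
  rw [abs_lt]
  constructor <;> linarith

end Pool.Agent.Helper59K9.St
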