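import Pool.Agent.Helper59K9.St.Cnt5

set_option autoImplicit false
set_option maxHeartbeats 4000000

namespace Pool.Agent.Helper59K9.St
open Finset Filter Topology
open Pool.Agent.H895R3.NK (ev_log')
open Pool.Agent.R98 (pnt primeCounting_eq)
open Pool.Agent.R60.Steiner (IsSteiner DivCond NoCarry Red divCond_iff_red noCarry_of_red
  divCond_of_isSteiner)

lemma Red.mono {a b r s : ℕ} (h : Red a b r) (hs : s ≤ r) : Red a b s := fun t ht => h t (ht.trans hs)

open Classical in
/-- the pairs `(q - r, n - q)` -/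
noncomputable def QQ (X b : ℕ) (R : ℝ) : Finset (ℕ × ℕ) :=
  (Icc b X ×ˢ Icc 1 X).filter (fun z => ∃ r : ℕ, R ≤ r ∧ Red z.1 z.2 r)

/-- The number of pairs `(q - r, n - q)` which occur for some `r ≥ X ^ ε`. -/
theorem pairsQ (ε : ℝ) (hε : 0 < ε) (b : ℕ) (hb : 1 ≤ b) : ∃ K : ℝ, 0 < K ∧
    ∀ X : ℕ, 2 ≤ X → ((QQ X b ((X : ℝ) ^ ε)).card : ℝ) ≤ K * (X / (Real.log X) ^ b) := by
  classical
  obtain ⟨K, X₀, hK, h⟩ := sum_large (min ε (1 / 4)) (lt_min hε (by norm_num)) (min_le_right _ _) b hb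
  obtain ⟨K', hK', hKK, h'⟩ := absorb 1 b X₀ K
  refine ⟨K', hK', fun X hX => ?_⟩
  have hXr : (2 : ℝ) ≤ X := by exact_mod_cast hX
  have hl : 0 < Real.log X := Real.log_pos (by linarith)
  rcases Nat.lt_or_ge X X₀ with hX0 | hX0
  · have h1 : (QQ X b ((X : ℝ) ^ ε)).card ≤ X * X := by
      unfold QQ
      refine (card_filter_le _ _).trans ?_
      rw [card_product, Nat.card_Icc, Nat.card_Icc]
      exact Nat.mul_le_mul (by omega) (by omega)
    have h2 := h' X hX hX0
    rw [pow_one] at h2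
    refine le_trans ?_ h2
    calc ((QQ X b ((X : ℝ) ^ ε)).card : ℝ) ≤ ((X * X : ℕ) : ℝ) := by exact_mod_cast h1
      _ = _ := by push_cast; ring
  · set r₀ : ℕ := ⌈(X : ℝ) ^ (min ε (1 / 4))⌉₊ with hr₀
    have hr1 : (X : ℝ) ^ (min ε (1 / 4)) ≤ r₀ := Nat.le_ceil _
    have h1r : (1 : ℝ) ≤ (X : ℝ) ^ (min ε (1 / 4)) :=
      Real.one_le_rpow (by linarith) (le_min hε.le (by norm_num))
    have hr1' : 1 ≤ r₀ := by exact_mod_cast h1r.trans hr1
    have hr2 : r₀ ≤ X := by
      rw [hr₀, Nat.ceil_le]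
      calc (X : ℝ) ^ (min ε (1 / 4)) ≤ (X : ℝ) ^ (1 : ℝ) :=
            Real.rpow_le_rpow_of_exponent_le (by linarith)
              ((min_le_right _ _).trans (by norm_num))
        _ = X := Real.rpow_one _
    have hsub : QQ X b ((X : ℝ) ^ ε) ⊆ (Icc b X).biUnion
        (fun a => (GG X r₀ a).image (fun s => (a, (a + 1) * s))) := by
      rintro ⟨a, c⟩ hz
      unfold QQ at hz
      rw [mem_filter, mem_product] at hz
      obtain ⟨⟨ha, hc⟩, r, hr, hR⟩ := hz
      simp only at ha hc hR
      have hr3 : r₀ ≤ r := by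
        rw [hr₀, Nat.ceil_le]
        exact (Real.rpow_le_rpow_of_exponent_le (by linarith) (min_le_left _ _)).trans hr
      have hR0 := Red.mono hR hr3
      obtain ⟨s, hs⟩ := dvd_one hR0 hr1'
      rw [mem_biUnion]
      refine ⟨a, ha, ?_⟩
      rw [mem_image]
      rw [mem_Icc] at hc
      refine ⟨s, ?_, by rw [hs]⟩
      unfold GG
      rw [mem_filter, mem_Icc, ← hs]
      have hs0 : s ≠ 0 := by rintro rfl; omega
      refine ⟨⟨by omega, ?_⟩, hR0⟩
      rw [Nat.le_div_iff_mul_le (by omega), mul_comm, ← hs]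
      exact hc.2
    have h1 : (QQ X b ((X : ℝ) ^ ε)).card ≤ ∑ a ∈ Icc b X, (GG X r₀ a).card :=
      (card_le_card hsub).trans (card_biUnion_le.trans (sum_le_sum fun a _ => card_image_le))
    have h2 : ((QQ X b ((X : ℝ) ^ ε)).card : ℝ) ≤ ∑ a ∈ Icc b X, ((GG X r₀ a).card : ℝ) := by
      exact_mod_cast h1
    refine h2.trans ((h X hX0 r₀ hr1 hr2).trans ?_)
    exact mul_le_mul_of_nonneg_right hKK (by positivity)

open Classical in
/-- the pairs `(q, r)` for fixed `n` -/
noncomputable def DD (n b : ℕ) : Finset (ℕ × ℕ) :=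
  (Icc 1 n ×ˢ Icc 1 n).filter (fun z => z.2 + b ≤ z.1 ∧ z.1 < n ∧ DivCond n z.1 z.2)

/-- The number of pairs `(q, r)` for each `n`. -/
theorem fixedN (b : ℕ) (hb : 1 ≤ b) : ∃ K : ℝ, 0 < K ∧ ∀ n : ℕ, 2 ≤ n →
    ((DD n b).card : ℝ) ≤ K * (n / (Real.log n) ^ b) := by
  classical
  obtain ⟨K, hK, h⟩ := pairsQ (1 / 4) (by norm_num) b hb
  obtain ⟨X₀, hX₀⟩ := ev_log' (1 / 4) (by norm_num) b 2
  obtain ⟨K', hK', hKK, h'⟩ := absorb 1 b X₀ (K + 2)
  refine ⟨K', hK', fun n hn => ?_⟩
  have hnr : (2 : ℝ) ≤ n := by exact_mod_cast hn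
  have hl : 0 < Real.log n := Real.log_pos (by linarith)
  rcases Nat.lt_or_ge n X₀ with hn0 | hn0
  · have h1 : (DD n b).card ≤ n * n := by
      unfold DD
      refine (card_filter_le _ _).trans ?_
      rw [card_product, Nat.card_Icc]
      simp
    have h2 := h' n hn hn0
    rw [pow_one] at h2
    refine le_trans ?_ h2
    calc ((DD n b).card : ℝ) ≤ ((n * n : ℕ) : ℝ) := by exact_mod_cast h1
      _ = _ := by push_cast; ring
  · obtain ⟨-, hl2, hl1, -, hlb⟩ := hX₀ n hn0
    set L := Real.log n with hL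
    set Z : ℝ := (n : ℝ) ^ ((1 : ℝ) / 4) with hZ
    set k : ℕ := ⌊Z⌋₊ with hk
    have hn0 : (0 : ℝ) < n := by linarith
    have hZ0 : 0 < Z := by positivity
    have hZ4 : Z * Z * Z * Z = n := by
      rw [hZ, ← Real.rpow_add hn0, ← Real.rpow_add hn0, ← Real.rpow_add hn0]
      norm_num
    have hsq : Real.sqrt n = Z * Z := by
      rw [Real.sqrt_eq_iff_mul_self_eq hn0.le (by positivity)]
      linarith
    have hsub : DD n b ⊆ ((QQ n b Z).image (fun z => (n - z.2, n - z.2 - z.1))) ∪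
        (Icc 1 k).biUnion (fun r => ((n - r + 1).divisors).image (fun d => (d + r - 1, r))) := by
      rintro ⟨q, r⟩ hz
      unfold DD at hz
      rw [mem_filter, mem_product, mem_Icc, mem_Icc] at hz
      obtain ⟨⟨⟨hq1, hqn'⟩, hr1, hrn⟩, h1, h2, hD⟩ := hz
      simp only at hq1 hqn' hr1 hrn h1 h2 hD
      have hR := (divCond_iff_red (by omega) h2.le).1 hD
      rw [mem_union]
      rcases le_or_gt Z r with hZr | hZr
      · left
        rw [mem_image]
        refine ⟨(q - r, n - q), ?_, ?_⟩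
        · unfold QQ
          rw [mem_filter, mem_product, mem_Icc, mem_Icc]
          exact ⟨⟨⟨by omega, by omega⟩, by simp only; omega, by simp only; omega⟩, r, hZr, hR⟩
        · simp only [Prod.mk.injEq]
          constructor <;> omega
      · right
        rw [mem_biUnion]
        refine ⟨r, ?_, ?_⟩
        · rw [mem_Icc]
          exact ⟨hr1, Nat.le_floor hZr.le⟩
        · rw [mem_image]
          refine ⟨q - r + 1, ?_, ?_⟩
          · rw [Nat.mem_divisors]
            refine ⟨?_, by omega⟩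
            obtain ⟨s, hs⟩ := dvd_one hR hr1
            refine ⟨s + 1, ?_⟩
            rw [mul_add, ← hs, mul_one]
            omega
          · simp only [Prod.mk.injEq, and_true]
            omega
    have h1 : (DD n b).card ≤ (QQ n b Z).card + ∑ r ∈ Icc 1 k, (n - r + 1).divisors.card :=
      (card_le_card hsub).trans ((card_union_le _ _).trans
        (Nat.add_le_add card_image_le (card_biUnion_le.trans (sum_le_sum fun a _ => card_image_le))))
    have h2 : ((DD n b).card : ℝ) ≤ ((QQ n b Z).card : ℝ) +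
        ∑ r ∈ Icc 1 k, ((n - r + 1).divisors.card : ℝ) := by exact_mod_cast h1
    have h3 : ∑ r ∈ Icc 1 k, ((n - r + 1).divisors.card : ℝ) ≤ 2 * (n / L ^ b) := by
      calc ∑ r ∈ Icc 1 k, ((n - r + 1).divisors.card : ℝ) ≤ ∑ r ∈ Icc 1 k, 2 * (Z * Z) := by
            apply sum_le_sum
            intro r hr
            rw [mem_Icc] at hr
            refine (card_div_le _ (by omega)).trans ?_
            rw [← hsq]
            apply mul_le_mul_of_nonneg_left _ (by norm_num)
            apply Real.sqrt_le_sqrt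
            exact_mod_cast (by omega : n - r + 1 ≤ n)
        _ = k * (2 * (Z * Z)) := by rw [sum_const, Nat.card_Icc, nsmul_eq_mul]; simp
        _ ≤ Z * (2 * (Z * Z)) := by
            apply mul_le_mul_of_nonneg_right _ (by positivity)
            exact Nat.floor_le hZ0.le
        _ ≤ 2 * (n / L ^ b) := by
            have : Z * Z * Z ≤ n / L ^ b := by
              rw [le_div_iff₀ (by positivity)]
              calc Z * Z * Z * L ^ b ≤ Z * Z * Z * Z := by gcongr
                _ = n := hZ4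
            linarith
    calc ((DD n b).card : ℝ) ≤ K * (n / L ^ b) + 2 * (n / L ^ b) := h2.trans (add_le_add (h n hn) h3)
      _ = (K + 2) * (n / L ^ b) := by ring
      _ ≤ _ := mul_le_mul_of_nonneg_right hKK (by positivity)

open Classical in
/-- All but few pairs have `q = r + 1` and `n - r` prime. -/
theorem rareN : ∃ K : ℝ, 0 < K ∧ ∀ n : ℕ, 2 ≤ n →
    (((DD n 1).filter (fun z => ¬ (z.1 = z.2 + 1 ∧ (n - z.2).Prime))).card : ℝ) ≤
      K * (n / (Real.log n) ^ 2) := by
  obtain ⟨K, hK, h⟩ := fixedN 2 (by norm_num)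
  obtain ⟨X₀, hX₀⟩ := ev_log' (1 / 2) (by norm_num) 2 2
  obtain ⟨K', hK', hKK, h'⟩ := absorb 1 2 X₀ (K + 1)
  refine ⟨K', hK', fun n hn => ?_⟩
  have hnr : (2 : ℝ) ≤ n := by exact_mod_cast hn
  have hl : 0 < Real.log n := Real.log_pos (by linarith)
  rcases Nat.lt_or_ge n X₀ with hn0 | hn0
  · have h1 : ((DD n 1).filter (fun z => ¬ (z.1 = z.2 + 1 ∧ (n - z.2).Prime))).card ≤ n * n := by
      refine (card_filter_le _ _).trans ?_
      unfold DD
      refine (card_filter_le _ _).trans ?_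
      rw [card_product, Nat.card_Icc]
      simp
    have h2 := h' n hn hn0
    rw [pow_one] at h2
    refine le_trans ?_ h2
    calc _ ≤ ((n * n : ℕ) : ℝ) := by exact_mod_cast h1
      _ = _ := by push_cast; ring
  · obtain ⟨-, hl2, hl1, -, hlb⟩ := hX₀ n hn0
    set L := Real.log n with hL
    set s := Nat.sqrt n with hs
    have hsub : (DD n 1).filter (fun z => ¬ (z.1 = z.2 + 1 ∧ (n - z.2).Prime)) ⊆
        DD n 2 ∪ (Icc 1 s).image (fun r => (r + 1, r)) := by
      rintro ⟨q, r⟩ hz
      rw [mem_filter] at hz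
      obtain ⟨hz1, hz2⟩ := hz
      simp only at hz2
      unfold DD at hz1
      rw [mem_filter, mem_product] at hz1
      obtain ⟨⟨hq, hr⟩, h1, h2, hD⟩ := hz1
      simp only at hq hr h1 h2 hD
      rw [mem_union]
      rcases Nat.lt_or_ge q (r + 2) with hq2 | hq2
      · right
        have hqr : q = r + 1 := by omega
        subst hqr
        have hnp : ¬ (n - r).Prime := fun hp => hz2 ⟨rfl, hp⟩
        rw [mem_image]
        refine ⟨r, ?_, rfl⟩
        rw [mem_Icc] at hr ⊢
        refine ⟨hr.1, ?_⟩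
        have hR := (divCond_iff_red (by omega) h2.le).1 hD
        have e1 : r + 1 - r = 1 := by omega
        rw [e1] at hR
        have hmf := Nat.minFac_prime (n := n - r) (by omega)
        have hmd := Nat.minFac_dvd (n - r)
        have hrm : r + 1 < (n - r).minFac := by
          by_contra hc
          have h5 := not_dvd hR hmf hmf.one_lt (by omega) (j := 1) le_rfl le_rfl
          apply h5
          have : n - (r + 1) + 1 = n - r := by omega
          rw [this]
          exact hmd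
        have h6 := Nat.minFac_sq_le_self (n := n - r) (by omega) hnp
        rw [Nat.le_sqrt']
        calc r ^ 2 ≤ (n - r).minFac ^ 2 := Nat.pow_le_pow_left (by omega) 2
          _ ≤ n - r := h6
          _ ≤ n := by omega
      · left
        unfold DD
        rw [mem_filter, mem_product]
        exact ⟨⟨hq, hr⟩, hq2, h2, hD⟩
    have h1 := (card_le_card hsub).trans ((card_union_le _ _).trans
      (Nat.add_le_add_left card_image_le _))
    rw [Nat.card_Icc, Nat.add_sub_cancel] at h1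
    have hsX : (s : ℝ) ≤ (n : ℝ) ^ ((1 : ℝ) / 2) := by
      rw [← Real.sqrt_eq_rpow]
      exact Real.nat_sqrt_le_real_sqrt
    have hsq : (n : ℝ) ^ ((1 : ℝ) / 2) * (n : ℝ) ^ ((1 : ℝ) / 2) = n := by
      rw [← Real.sqrt_eq_rpow]
      exact Real.mul_self_sqrt (by linarith)
    have h3 : (s : ℝ) ≤ n / L ^ 2 := by
      rw [le_div_iff₀ (by positivity)]
      calc (s : ℝ) * L ^ 2 ≤ (n : ℝ) ^ ((1 : ℝ) / 2) * (n : ℝ) ^ ((1 : ℝ) / 2) := by gcongr
        _ = n := hsq
    calc _ ≤ (((DD n 2).card + s : ℕ) : ℝ) := by exact_mod_cast h1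
      _ = ((DD n 2).card : ℝ) + s := by push_cast; rfl
      _ ≤ K * (n / L ^ 2) + n / L ^ 2 := add_le_add (h n hn) h3
      _ = (K + 1) * (n / L ^ 2) := by ring
      _ ≤ _ := mul_le_mul_of_nonneg_right hKK (by positivity)

open Classical in
lemma PN_card (n : ℕ) (hn : 1 ≤ n) :
    (((DD n 1).filter (fun z => z.1 = z.2 + 1 ∧ (n - z.2).Prime)).card : ℝ) =
      (Nat.primeCounting (n - 1) : ℝ) - Nat.primeCounting ((n + 1) / 2) := by
  have h0 : (DD n 1).filter (fun z => z.1 = z.2 + 1 ∧ (n - z.2).Prime) =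
      ((Ioc ((n + 1) / 2) (n - 1)).filter Nat.Prime).image (fun p => (n - p + 1, n - p)) := by
    ext ⟨q, r⟩
    unfold DD
    rw [mem_filter, mem_filter, mem_product, mem_image]
    simp only [mem_Icc]
    constructor
    · rintro ⟨⟨⟨⟨hq1, hqn⟩, hr1, hrn⟩, h1, h2, hD⟩, hqr, hp⟩
      subst hqr
      have hR := (divCond_iff_red (by omega) h2.le).1 hD
      have e1 : r + 1 - r = 1 := by omega
      rw [e1] at hR
      have hrm : r + 1 < n - r := by
        by_contra hc
        have h5 := not_dvd hR hp hp.one_lt (by omega) (j := 1) le_rfl le_rfl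
        apply h5
        have : n - (r + 1) + 1 = n - r := by omega
        rw [this]
      refine ⟨n - r, ?_, ?_⟩
      · rw [mem_filter, mem_Ioc]
        exact ⟨⟨by omega, by omega⟩, hp⟩
      · simp only [Prod.mk.injEq]
        omega
    · rintro ⟨p, hz, he⟩
      rw [mem_filter, mem_Ioc] at hz
      obtain ⟨⟨h3, h4⟩, hp⟩ := hz
      simp only [Prod.mk.injEq] at he
      obtain ⟨rfl, rfl⟩ := he
      have hp2 := hp.two_le
      have e1 : n - p + 1 - (n - p) = 1 := by omega
      have e2 : n - (n - p + 1) = p - 1 := by omega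
      have e3 : p - 1 + 1 = p := by omega
      have e4 : n - (n - p) = p := by omega
      refine ⟨⟨⟨⟨by omega, by omega⟩, by omega, by omega⟩, le_rfl, by omega, ?_⟩, rfl, ?_⟩
      · rw [divCond_iff_red (by omega) (by omega), e1, e2]
        exact red_one_of_prime (by rw [e3]; exact hp) (by omega)
      · rw [e4]; exact hp
  rw [h0, card_image_of_injOn]
  · rcases Nat.lt_or_ge n 3 with h3 | h3
    · have : n = 1 ∨ n = 2 := by omega
      rcases this with rfl | rfl
      · simp
      · simp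
    have h1 : (Icc 1 (n - 1)).filter Nat.Prime =
        (Icc 1 ((n + 1) / 2)).filter Nat.Prime ∪ (Ioc ((n + 1) / 2) (n - 1)).filter Nat.Prime := by
      ext p
      simp only [mem_union, mem_filter, mem_Icc, mem_Ioc]
      constructor
      · rintro ⟨⟨a1, a2⟩, a3⟩
        rcases Nat.lt_or_ge ((n + 1) / 2) p with h | h
        · exact Or.inr ⟨⟨h, a2⟩, a3⟩
        · exact Or.inl ⟨⟨a1, h⟩, a3⟩
      · rintro (⟨⟨a1, a2⟩, a3⟩ | ⟨⟨a1, a2⟩, a3⟩)
        · exact ⟨⟨a1, by omega⟩, a3⟩
        · exact ⟨⟨by omega, a2⟩, a3⟩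
    have h2 : Disjoint ((Icc 1 ((n + 1) / 2)).filter Nat.Prime)
        ((Ioc ((n + 1) / 2) (n - 1)).filter Nat.Prime) := by
      rw [disjoint_left]
      intro p hp hp'
      rw [mem_filter, mem_Icc] at hp
      rw [mem_filter, mem_Ioc] at hp'
      omega
    rw [primeCounting_eq, primeCounting_eq, h1, card_union_of_disjoint h2]
    push_cast
    ring
  · intro p hp p' hp' h
    rw [mem_coe, mem_filter, mem_Ioc] at hp hp'
    simp only [Prod.mk.injEq] at h
    omega

/-- The number of pairs `(q, r)` with (D), for each `n`. -/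
theorem asympN : Tendsto (fun n : ℕ => ((DD n 1).card : ℝ) * Real.log n / n) atTop
    (𝓝 (1 / 2)) := by
  classical
  obtain ⟨K, hK, hrare⟩ := rareN
  rw [Metric.tendsto_atTop]
  intro ε hε
  set η : ℝ := min (ε / 8) 1 with hη
  have hη0 : 0 < η := lt_min (by positivity) one_pos
  have hηε : η ≤ ε / 8 := min_le_left _ _
  obtain ⟨X₀, hX₀⟩ := pi_unif η hη0 (min_le_right _ _)
  have hc : Tendsto (fun N : ℕ => Real.log N) atTop atTop :=
    Real.tendsto_log_atTop.comp tendsto_natCast_atTop_atTop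
  obtain ⟨X₁, hX₁⟩ := eventually_atTop.1 (hc.eventually_ge_atTop (4 * K / ε + 1))
  refine ⟨X₀ + X₁ + ⌈16 / ε⌉₊ + 2, fun n hn => ?_⟩
  have h2 : 2 ≤ n := by omega
  have hnr : (2 : ℝ) ≤ n := by exact_mod_cast h2
  have hn0 : (0 : ℝ) < n := by linarith
  have hl := hX₁ n (by omega)
  have hl0 : 0 < Real.log n := Real.log_pos (by linarith)
  have hnε : 16 ≤ ε * n := by
    have h3 : 16 / ε ≤ n := (Nat.le_ceil _).trans ((Nat.cast_le (α := ℝ)).2 (by omega))
    rw [div_le_iff₀ hε] at h3
    linarith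
  have a1 := PN_card n (by omega)
  have a2 := hrare n h2
  have a3 : (DD n 1).card = ((DD n 1).filter (fun z => z.1 = z.2 + 1 ∧ (n - z.2).Prime)).card +
      ((DD n 1).filter (fun z => ¬ (z.1 = z.2 + 1 ∧ (n - z.2).Prime))).card :=
    (card_filter_add_card_filter_not _).symm
  set B : ℝ := (((DD n 1).filter (fun z => ¬ (z.1 = z.2 + 1 ∧ (n - z.2).Prime))).card : ℝ) with hB
  have hB0 : 0 ≤ B := by positivity
  have a4 : ((DD n 1).card : ℝ) =
      ((Nat.primeCounting (n - 1) : ℝ) - Nat.primeCounting ((n + 1) / 2)) + B := by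
    rw [← a1, a3]; push_cast; rfl
  have a5 : B * Real.log n ≤ ε / 4 * n := by
    calc B * Real.log n ≤ K * (n / (Real.log n) ^ 2) * Real.log n := by gcongr
      _ = K / Real.log n * n := by field_simp
      _ ≤ ε / 4 * n := by
          apply mul_le_mul_of_nonneg_right _ (by positivity)
          rw [div_le_iff₀ hl0]
          have : 4 * K / ε ≤ Real.log n := by linarith
          rw [div_le_iff₀ hε] at this
          linarith
  have b1 := abs_le.1 (hX₀ n (by omega) (n - 1) (by omega))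
  have b2 := abs_le.1 (hX₀ n (by omega) ((n + 1) / 2) (by omega))
  rw [Nat.cast_sub (by omega : 1 ≤ n), Nat.cast_one] at b1
  have c1 : (((n + 1) / 2 : ℕ) : ℝ) ≤ ((n : ℝ) + 1) / 2 := by
    have := Nat.cast_div_le (α := ℝ) (m := n + 1) (n := 2)
    push_cast at this
    exact this
  have c2 : (n : ℝ) / 2 ≤ (((n + 1) / 2 : ℕ) : ℝ) := by
    have : n ≤ 2 * ((n + 1) / 2) := by omega
    have h' : (n : ℝ) ≤ ((2 * ((n + 1) / 2) : ℕ) : ℝ) := by exact_mod_cast this
    rw [Nat.cast_mul] at h'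
    push_cast at h' ⊢
    linarith
  rw [Real.dist_eq]
  have e : ((DD n 1).card : ℝ) * Real.log n / n - 1 / 2 =
      (((DD n 1).card : ℝ) * Real.log n - n / 2) / n := by
    field_simp
  rw [e, abs_div, abs_of_pos hn0, div_lt_iff₀ hn0, a4, add_mul, sub_mul]
  have a7 : η * n ≤ ε / 8 * n := by
    apply mul_le_mul_of_nonneg_right _ hn0.le
    linarith
  have a8 : 0 ≤ B * Real.log n := by positivity
  have a9 : 0 < ε * n := by positivity
  rw [abs_lt]
  constructor <;> linarith

end Pool.Agent.Helper59K9.St
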