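import Pool.Agent.Helper59K9.St.Cnt6

set_option autoImplicit false
set_option maxHeartbeats 4000000

namespace Pool.Agent.Helper59K9.St
open Finset Filter Topology
open Pool.Agent.H895R3.NK (ev_log')
open Pool.Agent.R60.Steiner (IsSteiner DivCond NoCarry Red divCond_iff_red noCarry_of_red
  divCond_of_isSteiner)

open Classical in
/-- the pairs `(n, r)` for fixed `q` -/
noncomputable def EE (X q b : ℕ) : Finset (ℕ × ℕ) :=
  (Icc 1 X ×ˢ Icc 1 X).filter (fun z => z.2 + b ≤ q ∧ q < z.1 ∧ DivCond z.1 q z.2)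

/-- The number of pairs `(n, r)`, for each `q ≥ X ^ ε`. -/
theorem fixedQ (ε : ℝ) (hε : 0 < ε) (b : ℕ) (hb : 1 ≤ b) : ∃ K : ℝ, 0 < K ∧
    ∀ X : ℕ, 2 ≤ X → ∀ q : ℕ, (X : ℝ) ^ ε ≤ q →
      ((EE X q b).card : ℝ) ≤ K * (X / (Real.log X) ^ b) := by
  classical
  set δ : ℝ := min ε (1 / 4) / 4 with hδ
  have hm0 : 0 < min ε (1 / 4) := lt_min hε (by norm_num)
  have hδ0 : 0 < δ := by positivity
  have hδε : 4 * δ ≤ ε := by rw [hδ]; have := min_le_left ε (1 / 4); linarith
  obtain ⟨K, hK, h⟩ := pairsQ δ hδ0 b hb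
  obtain ⟨X₀, hX₀⟩ := ev_log' δ hδ0 (b + 1) 2
  obtain ⟨K', hK', hKK, h'⟩ := absorb 1 b X₀ (K + 2)
  refine ⟨K', hK', fun X hX q hq => ?_⟩
  have hXr : (2 : ℝ) ≤ X := by exact_mod_cast hX
  have hl : 0 < Real.log X := Real.log_pos (by linarith)
  rcases Nat.lt_or_ge X X₀ with hX0 | hX0
  · have h1 : (EE X q b).card ≤ X * X := by
      unfold EE
      refine (card_filter_le _ _).trans ?_
      rw [card_product, Nat.card_Icc]
      simp
    have h2 := h' X hX hX0
    rw [pow_one] at h2
    refine le_trans ?_ h2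
    calc ((EE X q b).card : ℝ) ≤ ((X * X : ℕ) : ℝ) := by exact_mod_cast h1
      _ = _ := by push_cast; ring
  · obtain ⟨-, hl2, hl1, -, hlb⟩ := hX₀ X hX0
    set L := Real.log X with hL
    have hX0 : (0 : ℝ) < X := by linarith
    set Z : ℝ := (X : ℝ) ^ δ with hZ
    have hZ2 : 2 ≤ Z := by
      calc (2 : ℝ) ≤ L := hl2
        _ = L ^ 1 := (pow_one L).symm
        _ ≤ L ^ (b + 1) := pow_le_pow_right₀ hl1 (by omega)
        _ ≤ Z := hlb
    have hZ0 : 0 < Z := by linarith
    have hLbZ : L ^ b ≤ Z := (pow_le_pow_right₀ hl1 (by omega)).trans hlb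
    set k : ℕ := ⌊Z⌋₊ with hk
    have hkZ : (k : ℝ) ≤ Z := Nat.floor_le hZ0.le
    have hq4 : Z * Z * Z * Z ≤ q := by
      refine le_trans ?_ hq
      rw [hZ, ← Real.rpow_add hX0, ← Real.rpow_add hX0, ← Real.rpow_add hX0]
      apply Real.rpow_le_rpow_of_exponent_le (by linarith)
      linarith
    have hsub : EE X q b ⊆ ((QQ X b Z).image (fun z => (q + z.2, q - z.1))) ∪
        (Icc 1 k).biUnion (fun r => (Icc 1 (X / (q - r + 1))).image
          (fun s => (q + (q - r + 1) * s, r))) := by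
      rintro ⟨n, r⟩ hz
      unfold EE at hz
      rw [mem_filter, mem_product, mem_Icc, mem_Icc] at hz
      obtain ⟨⟨⟨hn1, hnX⟩, hr1, hrX⟩, h1, h2, hD⟩ := hz
      simp only at hn1 hnX hr1 hrX h1 h2 hD
      have hR := (divCond_iff_red (by omega) h2.le).1 hD
      rw [mem_union]
      rcases le_or_gt Z r with hZr | hZr
      · left
        rw [mem_image]
        refine ⟨(q - r, n - q), ?_, ?_⟩
        · unfold QQ
          rw [mem_filter, mem_product, mem_Icc, mem_Icc]
          exact ⟨⟨⟨by omega, by omega⟩, by simp only; omega, by simp only; omega⟩, r, hZr, hR⟩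
        · simp only [Prod.mk.injEq]
          constructor <;> omega
      · right
        rw [mem_biUnion]
        refine ⟨r, ?_, ?_⟩
        · rw [mem_Icc]
          exact ⟨hr1, Nat.le_floor hZr.le⟩
        · obtain ⟨s, hs⟩ := dvd_one hR hr1
          rw [mem_image]
          refine ⟨s, ?_, ?_⟩
          · rw [mem_Icc, Nat.le_div_iff_mul_le (by omega), mul_comm, ← hs]
            have hs0 : s ≠ 0 := by rintro rfl; omega
            omega
          · rw [← hs]
            simp only [Prod.mk.injEq, and_true]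
            omega
    have h1 : (EE X q b).card ≤ (QQ X b Z).card + ∑ r ∈ Icc 1 k, (X / (q - r + 1)) :=
      (card_le_card hsub).trans ((card_union_le _ _).trans
        (Nat.add_le_add card_image_le (card_biUnion_le.trans (sum_le_sum fun a _ =>
          card_image_le.trans (by simp)))))
    have h2 : ((EE X q b).card : ℝ) ≤ ((QQ X b Z).card : ℝ) +
        ∑ r ∈ Icc 1 k, ((X / (q - r + 1) : ℕ) : ℝ) := by exact_mod_cast h1
    have h3 : ∑ r ∈ Icc 1 k, ((X / (q - r + 1) : ℕ) : ℝ) ≤ 2 * (X / L ^ b) := by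
      calc ∑ r ∈ Icc 1 k, ((X / (q - r + 1) : ℕ) : ℝ) ≤ ∑ r ∈ Icc 1 k, (X : ℝ) / (Z * Z) := by
            apply sum_le_sum
            intro r hr
            rw [mem_Icc] at hr
            refine (Nat.cast_div_le (α := ℝ) (m := X) (n := q - r + 1)).trans ?_
            have hrZ : (r : ℝ) ≤ Z := (by exact_mod_cast hr.2 : (r : ℝ) ≤ k).trans hkZ
            have h5 : (q : ℝ) - r + 1 ≤ ((q - r + 1 : ℕ) : ℝ) := by
              have : (q : ℝ) ≤ ((q - r + r : ℕ) : ℝ) := by exact_mod_cast (by omega)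
              push_cast at this ⊢
              linarith
            have h6 : Z * Z + Z ≤ Z * Z * Z * Z := by
              have e1 : 2 * Z ≤ Z * Z := mul_le_mul_of_nonneg_right hZ2 hZ0.le
              have e2 : 4 * (Z * Z) ≤ (Z * Z) * (Z * Z) := by
                apply mul_le_mul_of_nonneg_right _ (by positivity)
                linarith
              have e3 : (Z * Z) * (Z * Z) = Z * Z * Z * Z := by ring
              linarith
            have h7 : Z * Z ≤ ((q - r + 1 : ℕ) : ℝ) := by linarith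
            gcongr
        _ = k * ((X : ℝ) / (Z * Z)) := by rw [sum_const, Nat.card_Icc, nsmul_eq_mul]; simp
        _ ≤ Z * ((X : ℝ) / (Z * Z)) := by gcongr
        _ = X / Z := by field_simp
        _ ≤ X / L ^ b := by gcongr
        _ ≤ 2 * (X / L ^ b) := by
            have : 0 ≤ X / L ^ b := by positivity
            linarith
    calc ((EE X q b).card : ℝ) ≤ K * (X / L ^ b) + 2 * (X / L ^ b) := h2.trans (add_le_add (h X hX) h3)
      _ = (K + 2) * (X / L ^ b) := by ring
      _ ≤ _ := mul_le_mul_of_nonneg_right hKK (by positivity)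

end Pool.Agent.Helper59K9.St
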