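import Pool.Agent.H895R3.NK.E6

set_option autoImplicit false
set_option maxHeartbeats 4000000

/-!
# Residues of two numbers modulo the primes of a dyadic interval

If `a` and `m ≥ 3 a` are large compared with `N (log N)^14` and at most a power of `N`, then
`a % p > m % p` for some prime `p` in `(N, 2 N]`.
-/

namespace Pool.Agent.Helper59K9.St
open Finset
open Pool.Agent.H469R2.NK (e norm_e e_add conj_e norm_sum_neg e_zero)
open Pool.Agent.H895R3.NK (e_re e_im theta_sub psi_sub prime_exp_small ev_log')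

/-- the trigonometric polynomial, as a function of two angles -/
noncomputable def Tp (X Y : ℝ) : ℝ :=
  3 * (Real.sin X + Real.sin (Y - X) - Real.sin Y) +
    (Real.cos (2 * X) + Real.cos (2 * (Y - X)) + Real.cos (2 * Y)) / 2 -
    Real.cos (Y - 2 * X) + Real.cos Y + Real.cos (Y - X) - Real.cos (Y + X) + Real.cos X -
    Real.cos (2 * Y - X)

lemma Tp_eq (X Y : ℝ) : Tp X Y = 3 / 2 + 3 * (Real.sin X + Real.sin (Y - X) - Real.sin Y) -
    (Real.sin X + Real.sin (Y - X) - Real.sin Y) ^ 2 := by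
  have e1 : Real.cos (Y - 2 * X) = Real.cos ((Y - X) - X) := by ring_nf
  have e2 : Real.cos Y = Real.cos ((Y - X) + X) := by ring_nf
  have e3 : Real.cos X = Real.cos (Y - (Y - X)) := by ring_nf
  have e4 : Real.cos (2 * Y - X) = Real.cos (Y + (Y - X)) := by ring_nf
  have h1 := Real.sin_sq_add_cos_sq X
  have h2 := Real.sin_sq_add_cos_sq Y
  have h3 := Real.sin_sq_add_cos_sq (Y - X)
  have f1 : Real.cos (Y - 2 * X) - Real.cos Y = 2 * Real.sin (Y - X) * Real.sin X := by
    rw [e1, e2, Real.cos_sub, Real.cos_add]; ring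
  have f2 : Real.cos (Y - X) - Real.cos (Y + X) = 2 * Real.sin Y * Real.sin X := by
    rw [Real.cos_sub, Real.cos_add]; ring
  have f3 : Real.cos X - Real.cos (2 * Y - X) = 2 * Real.sin Y * Real.sin (Y - X) := by
    rw [e4]
    nth_rewrite 1 [e3]
    rw [Real.cos_sub, Real.cos_add]; ring
  have g1 := Real.cos_two_mul X
  have g2 := Real.cos_two_mul Y
  have g3 := Real.cos_two_mul (Y - X)
  unfold Tp
  rw [g1, g2, g3]
  have h1' : Real.cos X ^ 2 = 1 - Real.sin X ^ 2 := by linarith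
  have h2' : Real.cos Y ^ 2 = 1 - Real.sin Y ^ 2 := by linarith
  have h3' : Real.cos (Y - X) ^ 2 = 1 - Real.sin (Y - X) ^ 2 := by linarith
  rw [h1', h2', h3']
  linear_combination (-1) * f1 + f2 + f3

/-- the sum of the three sines is nonnegative on the triangle -/
lemma S_nonneg {x y : ℝ} (h0 : 0 ≤ x) (hxy : x ≤ y) (h1 : y ≤ 1) :
    0 ≤ Real.sin (2 * Real.pi * x) + Real.sin (2 * Real.pi * y - 2 * Real.pi * x) -
      Real.sin (2 * Real.pi * y) := by
  have hpi := Real.pi_pos
  have key : Real.sin (2 * Real.pi * x) + Real.sin (2 * Real.pi * y - 2 * Real.pi * x) -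
      Real.sin (2 * Real.pi * y) =
      4 * Real.sin (Real.pi * x) * Real.sin (Real.pi * y - Real.pi * x) * Real.sin (Real.pi * y) := by
    have a1 : (2 * Real.pi * x) = 2 * (Real.pi * x) := by ring
    have a2 : 2 * Real.pi * y - 2 * Real.pi * x = 2 * (Real.pi * y - Real.pi * x) := by ring
    have a3 : (2 * Real.pi * y) = 2 * (Real.pi * y) := by ring
    have h1 := Real.sin_sq_add_cos_sq (Real.pi * x)
    have h2 := Real.sin_sq_add_cos_sq (Real.pi * y)
    have b1 : Real.cos (Real.pi * x) ^ 2 = 1 - Real.sin (Real.pi * x) ^ 2 := by linarith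
    have b2 : Real.cos (Real.pi * y) ^ 2 = 1 - Real.sin (Real.pi * y) ^ 2 := by linarith
    rw [a2, a1, a3, Real.sin_two_mul, Real.sin_two_mul, Real.sin_two_mul, Real.sin_sub,
      Real.cos_sub]
    linear_combination (2 * Real.sin (Real.pi * y) * Real.cos (Real.pi * y)) * b1 -
      (2 * Real.sin (Real.pi * x) * Real.cos (Real.pi * x)) * b2
  rw [key]
  have s1 : 0 ≤ Real.sin (Real.pi * x) := Real.sin_nonneg_of_nonneg_of_le_pi (by positivity)
    (by nlinarith)
  have s2 : 0 ≤ Real.sin (Real.pi * y - Real.pi * x) :=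
    Real.sin_nonneg_of_nonneg_of_le_pi (by nlinarith) (by nlinarith)
  have s3 : 0 ≤ Real.sin (Real.pi * y) := Real.sin_nonneg_of_nonneg_of_le_pi (by nlinarith)
    (by nlinarith)
  positivity

/-- the polynomial is large if the residue of `a` is at most the residue of `m` -/
lemma Tp_ge {a m p : ℕ} (hp : 0 < p) (h : a % p ≤ m % p) :
    3 / 2 ≤ Tp (2 * Real.pi * ((a : ℝ) / p)) (2 * Real.pi * ((m : ℝ) / p)) := by
  have hpr : (0 : ℝ) < p := by exact_mod_cast hp
  have dv : ∀ n : ℕ, (n : ℝ) / p = ((n / p : ℕ) : ℝ) + ((n % p : ℕ) : ℝ) / p := by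
    intro n
    rw [eq_comm, ← sub_eq_zero]
    field_simp
    have := Nat.div_add_mod n p
    have h3 : ((p * (n / p) + n % p : ℕ) : ℝ) = n := by exact_mod_cast this
    push_cast at h3
    linarith
  set x : ℝ := ((a % p : ℕ) : ℝ) / p with hx
  set y : ℝ := ((m % p : ℕ) : ℝ) / p with hy
  have hx0 : 0 ≤ x := by positivity
  have hxy : x ≤ y := by
    rw [hx, hy]
    have : ((a % p : ℕ) : ℝ) ≤ ((m % p : ℕ) : ℝ) := by exact_mod_cast h
    gcongr
  have hy1 : y ≤ 1 := by
    rw [hy, div_le_one hpr]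
    exact_mod_cast (Nat.mod_lt m hp).le
  have e1 : Real.sin (2 * Real.pi * ((a : ℝ) / p)) = Real.sin (2 * Real.pi * x) := by
    rw [dv a, show 2 * Real.pi * (((a / p : ℕ) : ℝ) + x) = 2 * Real.pi * x +
      ((a / p : ℕ) : ℝ) * (2 * Real.pi) by ring, Real.sin_add_nat_mul_two_pi]
  have e2 : Real.sin (2 * Real.pi * ((m : ℝ) / p)) = Real.sin (2 * Real.pi * y) := by
    rw [dv m, show 2 * Real.pi * (((m / p : ℕ) : ℝ) + y) = 2 * Real.pi * y +
      ((m / p : ℕ) : ℝ) * (2 * Real.pi) by ring, Real.sin_add_nat_mul_two_pi]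
  have e3 : Real.sin (2 * Real.pi * ((m : ℝ) / p) - 2 * Real.pi * ((a : ℝ) / p)) =
      Real.sin (2 * Real.pi * y - 2 * Real.pi * x) := by
    rw [dv a, dv m, show 2 * Real.pi * (((m / p : ℕ) : ℝ) + y) -
      2 * Real.pi * (((a / p : ℕ) : ℝ) + x) = 2 * Real.pi * y - 2 * Real.pi * x +
      ((m / p : ℕ) : ℝ) * (2 * Real.pi) - ((a / p : ℕ) : ℝ) * (2 * Real.pi) by ring,
      Real.sin_sub_nat_mul_two_pi, Real.sin_add_nat_mul_two_pi]
  rw [Tp_eq, e1, e2, e3]
  have hS := S_nonneg hx0 hxy hy1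
  set S := Real.sin (2 * Real.pi * x) + Real.sin (2 * Real.pi * y - 2 * Real.pi * x) -
      Real.sin (2 * Real.pi * y) with hSdef
  have hS3 : S ≤ 3 := by
    have h1 := Real.sin_le_one (2 * Real.pi * x)
    have h2 := Real.sin_le_one (2 * Real.pi * y - 2 * Real.pi * x)
    have h3 := Real.neg_one_le_sin (2 * Real.pi * y)
    rw [hSdef]; linarith
  nlinarith

/-- the polynomial is bounded from below -/
lemma Tp_lb (X Y : ℝ) : -18 ≤ Tp X Y := by
  rw [Tp_eq]
  have h1 := Real.sin_le_one X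
  have h2 := Real.sin_le_one (Y - X)
  have h3 := Real.sin_le_one Y
  have h4 := Real.neg_one_le_sin X
  have h5 := Real.neg_one_le_sin (Y - X)
  have h6 := Real.neg_one_le_sin Y
  set S := Real.sin X + Real.sin (Y - X) - Real.sin Y
  have h7 : S ≤ 3 := by simp only [S]; linarith
  have h8 : -3 ≤ S := by simp only [S]; linarith
  nlinarith

end Pool.Agent.Helper59K9.St
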