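import Pool.Agent.Helper59K9.St.Range
import Pool.Agent.R60.Steiner.Bounds

set_option autoImplicit false
set_option maxHeartbeats 4000000

namespace Pool.Agent.Helper59K9.St
open Finset
open Pool.Agent.H895R3.NK (ev_log')
open Pool.Agent.R60.Steiner (IsSteiner DivCond NoCarry divCond_iff_red noCarry_of_red tits
  divCond_of_isSteiner)

/-- the residues modulo primes up to `r` -/
lemma residue_le {n q r : ℕ} (hrq : r ≤ q) (hqn : q ≤ n) (h : DivCond n q r) {p : ℕ}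
    (hp : p.Prime) (hpr : p ≤ r) : (q - r) % p ≤ (n - r) % p := by
  have h1 := noCarry_of_red ((divCond_iff_red hrq hqn).1 h)
  have h2 := h1 p 1 hp one_pos
  simp only [pow_one] at h2
  have h3 : p * ((q - r) / p + 1) ≤ q - r + r := by
    have := Nat.div_mul_le_self (q - r) p
    calc p * ((q - r) / p + 1) = (q - r) / p * p + p := by ring
      _ ≤ q - r + r := by omega
  have h4 := h2 h3
  have e : n - r = (q - r) + (n - q) := by omega
  rw [e, Nat.add_mod]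
  rw [Nat.mod_eq_of_lt h4]
  omega

/-- The arithmetical theorem. -/
theorem arith (C : ℕ) : ∃ K : ℕ, ∀ n q r : ℕ, r ≤ q → q < n → K ≤ min r (q - r) →
    DivCond n q r → (r + 1) * (q - r + 1) ≤ n → min r (q - r) ^ C < n := by
  obtain ⟨N₀, hN₀⟩ := core (4 * C)
  obtain ⟨N₁, hN₁⟩ := ev_log' 1 one_pos 14 0
  refine ⟨(N₀ + N₁ + 3) ^ 2, fun n q r hrq hqn hK hD ht => ?_⟩
  by_contra hcon
  rw [not_lt] at hcon
  set μ : ℕ := min r (q - r) with hμ
  have hμr : μ ≤ r := min_le_left _ _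
  have hμa : μ ≤ q - r := min_le_right _ _
  set N : ℕ := Nat.sqrt μ with hN
  have hNb : N₀ + N₁ + 3 ≤ N := Nat.le_sqrt'.2 hK
  have hN1 : N ^ 2 ≤ μ := Nat.sqrt_le' μ
  have hN2 : μ < (N + 1) ^ 2 := Nat.lt_succ_sqrt' μ
  have hN3 : 3 * N ≤ N ^ 2 := by
    rw [pow_two]; exact Nat.mul_le_mul_right _ (by omega)
  obtain ⟨-, -, hl1, -, hlog⟩ := hN₁ N (by omega)
  rw [Real.rpow_one] at hlog
  have haN : (N : ℝ) * (Real.log N) ^ 14 ≤ ((q - r : ℕ) : ℝ) := by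
    calc (N : ℝ) * (Real.log N) ^ 14 ≤ N * N := by gcongr
      _ = ((N ^ 2 : ℕ) : ℝ) := by push_cast; ring
      _ ≤ _ := by exact_mod_cast hN1.trans hμa
  have hm3 : 3 * (q - r) ≤ n - r := by
    have h1 : 6 ≤ r := by omega
    have h2 : (r + 1) * (q - r + 1) = r * (q - r) + (q - r) + r + 1 := by ring
    have h3 : 6 * (q - r) ≤ r * (q - r) := Nat.mul_le_mul_right _ h1
    omega
  have hmd : n - r ≤ N ^ (4 * C) := by
    calc n - r ≤ n := Nat.sub_le n r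
      _ ≤ μ ^ C := hcon
      _ ≤ (N ^ 4) ^ C := by
          apply Nat.pow_le_pow_left
          refine hN2.le.trans ?_
          have h1 : N + 1 ≤ N ^ 2 := by omega
          calc (N + 1) ^ 2 ≤ (N ^ 2) ^ 2 := Nat.pow_le_pow_left h1 2
            _ = N ^ 4 := by ring
      _ = N ^ (4 * C) := (pow_mul N 4 C).symm
  exact hN₀ N (by omega) (q - r) (n - r) haN hm3 hmd fun p hp _ hp2 =>
    residue_le hrq hqn.le hD hp (by omega)

/-- The theorem for Steiner systems. -/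
theorem steinerMin (C : ℕ) : ∃ K : ℕ, ∀ n q r : ℕ, r ≤ q → q < n → K ≤ min r (q - r) →
    (∃ B, IsSteiner n q r B) → min r (q - r) ^ C < n := by
  obtain ⟨K, h⟩ := arith C
  refine ⟨K + 1, fun n q r hrq hqn hK ⟨B, hB⟩ => ?_⟩
  have h1 := min_le_left r (q - r)
  exact h n q r hrq hqn (by omega) (divCond_of_isSteiner (by omega) hB)
    (tits hB (by omega) hrq hqn)

/-- The theorem for Steiner systems, in terms of the block size. -/
theorem steiner (ε : ℝ) (hε : 0 < ε) (C : ℕ) : ∃ q₀ : ℕ, ∀ n q r : ℕ, q₀ ≤ q → r ≤ q → q < n →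
    (q : ℝ) ^ ε ≤ r → (q : ℝ) ^ ε ≤ ((q - r : ℕ) : ℝ) → (∃ B, IsSteiner n q r B) → q ^ C < n := by
  obtain ⟨K, h⟩ := steinerMin ⌈C / ε⌉₊
  have htend : Filter.Tendsto (fun q : ℕ => (q : ℝ) ^ ε) Filter.atTop Filter.atTop :=
    (tendsto_rpow_atTop hε).comp tendsto_natCast_atTop_atTop
  obtain ⟨q₀, hq₀⟩ := Filter.eventually_atTop.1 (htend.eventually_ge_atTop (K : ℝ))
  refine ⟨q₀ + 1, fun n q r hq hrq hqn hr ha hB => ?_⟩
  have hq1 : (1 : ℝ) ≤ q := by exact_mod_cast (by omega : 1 ≤ q)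
  have hμ : (q : ℝ) ^ ε ≤ ((min r (q - r) : ℕ) : ℝ) := by
    rcases min_choice r (q - r) with h1 | h1
    · rw [h1]; exact hr
    · rw [h1]; exact ha
  have hK : K ≤ min r (q - r) := by exact_mod_cast (hq₀ q (by omega)).trans hμ
  refine lt_of_le_of_lt ?_ (h n q r hrq hqn hK hB)
  have h2 : ((q ^ C : ℕ) : ℝ) ≤ ((min r (q - r) ^ ⌈C / ε⌉₊ : ℕ) : ℝ) := by
    calc ((q ^ C : ℕ) : ℝ) = (q : ℝ) ^ (ε * (C / ε)) := by
          rw [mul_div_cancel₀ _ hε.ne', Real.rpow_natCast]; push_cast; rfl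
      _ ≤ (q : ℝ) ^ (ε * (⌈C / ε⌉₊ : ℝ)) := by
          apply Real.rpow_le_rpow_of_exponent_le hq1
          exact mul_le_mul_of_nonneg_left (Nat.le_ceil _) hε.le
      _ = ((q : ℝ) ^ ε) ^ ⌈C / ε⌉₊ := by
          rw [Real.rpow_mul (by linarith), Real.rpow_natCast]
      _ ≤ ((min r (q - r) : ℕ) : ℝ) ^ ⌈C / ε⌉₊ := by gcongr
      _ = _ := by push_cast; rfl
  exact_mod_cast h2

open Classical in
/-- The number of exceptional pairs. -/
theorem pairs (ε : ℝ) (hε : 0 < ε) (C : ℕ) : ∃ X₀ : ℕ, ∀ X : ℕ, X₀ ≤ X →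
    ((((Icc 1 X) ×ˢ (Icc 1 X)).filter (fun z : ℕ × ℕ => z.2 ≤ z.1 ∧
      ∃ n, z.1 < n ∧ n ≤ X ^ C ∧ ∃ B, IsSteiner n z.1 z.2 B)).card : ℝ) ≤ (X : ℝ) ^ (1 + ε) := by
  obtain ⟨q₀, h⟩ := steiner (ε / 2) (by positivity) (2 * C)
  have htend : Filter.Tendsto (fun q : ℕ => (q : ℝ) ^ (ε / 2)) Filter.atTop Filter.atTop :=
    (tendsto_rpow_atTop (by positivity)).comp tendsto_natCast_atTop_atTop
  obtain ⟨X₁, hX₁⟩ := Filter.eventually_atTop.1 (htend.eventually_ge_atTop (6 : ℝ))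
  refine ⟨X₁ + q₀ ^ 2 + 1, fun X hX => ?_⟩
  have hX1 : 1 ≤ X := by omega
  have hXr : (1 : ℝ) ≤ X := by exact_mod_cast hX1
  have hX0 : (0 : ℝ) < X := by linarith
  set T : ℝ := (X : ℝ) ^ (ε / 2) with hT
  have hT6 : 6 ≤ T := hX₁ X (by omega)
  set t : ℕ := ⌈T⌉₊ with ht
  have htT : (t : ℝ) ≤ T + 1 := (Nat.ceil_lt_add_one (by linarith)).le
  set s : ℕ := Nat.sqrt X with hs
  -- the exceptional pairs lie in three sets
  have hsub : ((Icc 1 X) ×ˢ (Icc 1 X)).filter (fun z : ℕ × ℕ => z.2 ≤ z.1 ∧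
      ∃ n, z.1 < n ∧ n ≤ X ^ C ∧ ∃ B, IsSteiner n z.1 z.2 B) ⊆
      (Icc 1 s ×ˢ Icc 1 s) ∪ (Icc 1 X ×ˢ range t) ∪
        ((Icc 1 X ×ˢ range t).image fun z => (z.1, z.1 - z.2)) := by
    rintro ⟨q, r⟩ hz
    rw [mem_filter, mem_product, mem_Icc, mem_Icc] at hz
    obtain ⟨⟨⟨hq1, hqX⟩, hr1, hrX⟩, hrq, n, hqn, hnX, hB⟩ := hz
    simp only at hq1 hqX hr1 hrX hrq hqn hB
    rw [mem_union, mem_union, mem_product, mem_product, mem_Icc, mem_Icc, mem_Icc, mem_range,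
      mem_image]
    by_cases hqs : q ≤ s
    · left; left
      exact ⟨⟨hq1, hqs⟩, hr1, hrq.trans hqs⟩
    rw [not_le] at hqs
    have hXq : X < q ^ 2 := by
      have := Nat.sqrt_lt'.1 hqs
      exact this
    have hq0 : q₀ ≤ q := by
      by_contra hc
      rw [not_le] at hc
      have : q ^ 2 ≤ q₀ ^ 2 := Nat.pow_le_pow_left hc.le 2
      omega
    have hqT : (q : ℝ) ^ (ε / 2) ≤ T := by
      rw [hT]
      apply Real.rpow_le_rpow (by positivity) (by exact_mod_cast hqX) (by positivity)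
    by_cases hrt : r < t
    · left; right
      exact ⟨⟨hq1, hqX⟩, hrt⟩
    by_cases hat : q - r < t
    · right
      refine ⟨(q, q - r), ?_, ?_⟩
      · rw [mem_product, mem_Icc, mem_range]
        exact ⟨⟨hq1, hqX⟩, hat⟩
      · simp only [Prod.mk.injEq, true_and]
        omega
    exfalso
    rw [not_lt] at hrt hat
    have h1 : (T : ℝ) ≤ r := (Nat.le_ceil T).trans (by exact_mod_cast hrt)
    have h2 : (T : ℝ) ≤ ((q - r : ℕ) : ℝ) := (Nat.le_ceil T).trans (by exact_mod_cast hat)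
    have h3 := h n q r hq0 hrq hqn (hqT.trans h1) (hqT.trans h2) hB
    have h4 : X ^ C ≤ q ^ (2 * C) := by
      rw [pow_mul]
      exact Nat.pow_le_pow_left hXq.le C
    omega
  have hcard := card_le_card hsub
  have h1 : (((Icc 1 s ×ˢ Icc 1 s) ∪ (Icc 1 X ×ˢ range t) ∪
        ((Icc 1 X ×ˢ range t).image fun z : ℕ × ℕ => (z.1, z.1 - z.2))).card) ≤
      s * s + X * t + X * t := by
    refine (card_union_le _ _).trans ?_
    refine Nat.add_le_add ((card_union_le _ _).trans ?_) (card_image_le.trans ?_)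
    · rw [card_product, card_product, Nat.card_Icc, Nat.card_Icc, card_range]
      simp
    · rw [card_product, Nat.card_Icc, card_range]
      simp
  have h2 : s * s ≤ X := Nat.sqrt_le X
  have h3 : ((((Icc 1 X) ×ˢ (Icc 1 X)).filter (fun z : ℕ × ℕ => z.2 ≤ z.1 ∧
      ∃ n, z.1 < n ∧ n ≤ X ^ C ∧ ∃ B, IsSteiner n z.1 z.2 B)).card : ℝ) ≤
      X + 2 * (X * t) := by
    have h6 : ((s * s : ℕ) : ℝ) ≤ X := by exact_mod_cast h2
    have h7 : ((((Icc 1 X) ×ˢ (Icc 1 X)).filter (fun z : ℕ × ℕ => z.2 ≤ z.1 ∧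
      ∃ n, z.1 < n ∧ n ≤ X ^ C ∧ ∃ B, IsSteiner n z.1 z.2 B)).card : ℝ) ≤
      ((s * s + X * t + X * t : ℕ) : ℝ) := by exact_mod_cast hcard.trans h1
    push_cast at h6 h7
    linarith
  refine h3.trans ?_
  have h4 : (X : ℝ) ^ (1 + ε) = X * (T * T) := by
    rw [hT, ← Real.rpow_add hX0, Real.rpow_add hX0, Real.rpow_one]
    congr 2
    ring
  rw [h4]
  have h5 : (X : ℝ) + 2 * (X * t) = X * (1 + 2 * t) := by ring
  rw [h5]
  apply mul_le_mul_of_nonneg_left _ hX0.le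
  nlinarith

end Pool.Agent.Helper59K9.St
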