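import Pool.Agent.Helper59K9.St.Core

set_option autoImplicit false
set_option maxHeartbeats 4000000

namespace Pool.Agent.Helper59K9.St
open Finset
open Pool.Agent.H469R2.NK (e norm_e e_add conj_e norm_sum_neg e_zero)
open Pool.Agent.H895R3.NK (e_re e_im theta_sub psi_sub prime_exp_small ev_log')

/-- the weighted exponential sum over a dyadic interval -/
noncomputable def E (N : ℕ) (ξ : ℝ) : ℂ :=
  ∑ n ∈ Ioc N (2 * N), ((ArithmeticFunction.vonMangoldt n : ℝ) : ℂ) * e (ξ / (n : ℝ))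

lemma E_re (N : ℕ) (ξ : ℝ) : (E N ξ).re =
    ∑ n ∈ Ioc N (2 * N), ArithmeticFunction.vonMangoldt n * Real.cos (2 * Real.pi * (ξ / n)) := by
  unfold E
  rw [Complex.re_sum]
  refine sum_congr rfl fun n _ => ?_
  rw [Complex.re_ofReal_mul, e_re]

lemma E_im (N : ℕ) (ξ : ℝ) : (E N ξ).im =
    ∑ n ∈ Ioc N (2 * N), ArithmeticFunction.vonMangoldt n * Real.sin (2 * Real.pi * (ξ / n)) := by
  unfold E
  rw [Complex.im_sum]
  refine sum_congr rfl fun n _ => ?_
  rw [Complex.im_ofReal_mul, e_im]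

lemma E_comb (N : ℕ) (a m : ℝ) :
    3 * ((E N a).im + (E N (m - a)).im - (E N m).im) +
      ((E N (2 * a)).re + (E N (2 * (m - a))).re + (E N (2 * m)).re) / 2 -
      (E N (m - 2 * a)).re + (E N m).re + (E N (m - a)).re - (E N (m + a)).re + (E N a).re -
      (E N (2 * m - a)).re =
    ∑ n ∈ Ioc N (2 * N), ArithmeticFunction.vonMangoldt n *
      Tp (2 * Real.pi * (a / n)) (2 * Real.pi * (m / n)) := by
  simp only [E_re, E_im, Finset.mul_sum, Finset.sum_div, ← Finset.sum_add_distrib,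
    ← Finset.sum_sub_distrib]
  refine sum_congr rfl fun n _ => ?_
  unfold Tp
  have c1 : 2 * Real.pi * (m / n) - 2 * Real.pi * (a / n) = 2 * Real.pi * ((m - a) / n) := by ring
  have c2 : 2 * (2 * Real.pi * (a / n)) = 2 * Real.pi * (2 * a / n) := by ring
  have c3 : 2 * (2 * Real.pi * ((m - a) / n)) = 2 * Real.pi * (2 * (m - a) / n) := by ring
  have c4 : 2 * (2 * Real.pi * (m / n)) = 2 * Real.pi * (2 * m / n) := by ring
  have c5 : 2 * Real.pi * (m / n) - 2 * Real.pi * (2 * a / n) = 2 * Real.pi * ((m - 2 * a) / n) := by ring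
  have c6 : 2 * Real.pi * (m / n) + 2 * Real.pi * (a / n) = 2 * Real.pi * ((m + a) / n) := by ring
  have c7 : 2 * Real.pi * (2 * m / n) - 2 * Real.pi * (a / n) = 2 * Real.pi * ((2 * m - a) / n) := by ring
  rw [c1, c2, c3, c4, c5, c6, c7]
  ring

/-- The residues of `a` modulo the primes of a dyadic interval are not all bounded by those of
`m`. -/
theorem core (d : ℕ) : ∃ N₀ : ℕ, ∀ N : ℕ, N₀ ≤ N → ∀ a m : ℕ, (N : ℝ) * (Real.log N) ^ 14 ≤ a →
    3 * a ≤ m → m ≤ N ^ d →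
    ¬ (∀ p : ℕ, p.Prime → N < p → p ≤ 2 * N → a % p ≤ m % p) := by
  obtain ⟨N₁, hN₁⟩ := prime_exp_small (d + 1) (1 / 66) (by norm_num)
  obtain ⟨C, hC, hth⟩ := Pool.Agent.H442R2.EHI.PntErrAux.thetaU 1
  obtain ⟨C₂, hC₂⟩ := Chebyshev.psi_sub_theta_le_mul_sqrt
  obtain ⟨N₂, hN₂⟩ := ev_log' 1 one_pos 1 (16 * C)
  -- sqrt condition
  obtain ⟨N₃, hN₃⟩ : ∃ N₃ : ℕ, ∀ k : ℕ, N₃ ≤ k → 128 * |C₂| ≤ Real.sqrt k := by
    refine ⟨⌈(128 * |C₂|) ^ 2⌉₊, fun k hk => ?_⟩
    apply Real.le_sqrt_of_sq_le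
    exact (Nat.ceil_le.1 hk)
  refine ⟨N₁ + N₂ + N₃ + 2, fun k hk a m ha hm hmd hres => ?_⟩
  have hk2 : 2 ≤ k := by omega
  have hkr : (2 : ℝ) ≤ k := by exact_mod_cast hk2
  have hk0 : (0 : ℝ) < k := by linarith
  obtain ⟨-, hB, hl1, -, -⟩ := hN₂ k (by omega)
  have hsq := hN₃ k (by omega)
  have hm' : 3 * (a : ℝ) ≤ m := by exact_mod_cast hm
  have hmd' : (m : ℝ) ≤ (k : ℝ) ^ d := by exact_mod_cast hmd
  have ha0 : (0 : ℝ) ≤ a := by positivity
  have hbd : ∀ ξ : ℝ, (a : ℝ) ≤ ξ → ξ ≤ 2 * m → ‖E k ξ‖ ≤ 1 / 66 * k := by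
    intro ξ h1 h2
    apply hN₁ k (by omega) (2 * k) (by omega) le_rfl ξ (ha.trans h1)
    calc ξ ≤ 2 * m := h2
      _ ≤ (k : ℝ) * (k : ℝ) ^ d := by gcongr
      _ = (k : ℝ) ^ (d + 1) := by rw [pow_succ']
  have hre : ∀ ξ : ℝ, (a : ℝ) ≤ ξ → ξ ≤ 2 * m → |(E k ξ).re| ≤ 1 / 66 * k := fun ξ h1 h2 =>
    (Complex.abs_re_le_norm _).trans (hbd ξ h1 h2)
  have him : ∀ ξ : ℝ, (a : ℝ) ≤ ξ → ξ ≤ 2 * m → |(E k ξ).im| ≤ 1 / 66 * k := fun ξ h1 h2 =>
    (Complex.abs_im_le_norm _).trans (hbd ξ h1 h2)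
  have hcomb := E_comb k a m
  have hupper : 3 * ((E k a).im + (E k (m - a)).im - (E k m).im) +
      ((E k (2 * a)).re + (E k (2 * (m - a))).re + (E k (2 * m)).re) / 2 -
      (E k (m - 2 * a)).re + (E k m).re + (E k (m - a)).re - (E k (m + a)).re + (E k a).re -
      (E k (2 * m - a)).re ≤ k / 4 := by
    have i1 := abs_le.1 (him a le_rfl (by linarith))
    have i2 := abs_le.1 (him (m - a) (by linarith) (by linarith))
    have i3 := abs_le.1 (him m (by linarith) (by linarith))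
    have r1 := abs_le.1 (hre (2 * a) (by linarith) (by linarith))
    have r2 := abs_le.1 (hre (2 * (m - a)) (by linarith) (by linarith))
    have r3 := abs_le.1 (hre (2 * m) (by linarith) (by linarith))
    have r4 := abs_le.1 (hre (m - 2 * a) (by linarith) (by linarith))
    have r5 := abs_le.1 (hre m (by linarith) (by linarith))
    have r6 := abs_le.1 (hre (m - a) (by linarith) (by linarith))
    have r7 := abs_le.1 (hre (m + a) (by linarith) (by linarith))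
    have r8 := abs_le.1 (hre a (by linarith) (by linarith))
    have r9 := abs_le.1 (hre (2 * m - a) (by linarith) (by linarith))
    linarith [i1.1, i1.2, i2.1, i2.2, i3.1, i3.2, r1.1, r1.2, r2.1, r2.2, r3.1, r3.2, r4.1, r4.2,
      r5.1, r5.2, r6.1, r6.2, r7.1, r7.2, r8.1, r8.2, r9.1, r9.2]
  rw [hcomb] at hupper
  have hlower : (39 / 2) * (Chebyshev.theta ((2 * k : ℕ) : ℝ) - Chebyshev.theta (k : ℝ)) -
      18 * (Chebyshev.psi ((2 * k : ℕ) : ℝ) - Chebyshev.psi (k : ℝ)) ≤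
      ∑ n ∈ Ioc k (2 * k), ArithmeticFunction.vonMangoldt n *
      Tp (2 * Real.pi * (a / n)) (2 * Real.pi * (m / n)) := by
    rw [theta_sub k (2 * k) (by omega), psi_sub k (2 * k) (by omega), sum_filter, mul_sum, mul_sum,
      ← sum_sub_distrib]
    apply sum_le_sum
    intro n hn
    rw [mem_Ioc] at hn
    have hL := ArithmeticFunction.vonMangoldt_nonneg (n := n)
    split_ifs with hp
    · have h1 := Tp_ge (a := a) (m := m) hp.pos (hres n hp hn.1 hn.2)
      rw [ArithmeticFunction.vonMangoldt_apply_prime hp]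
      have h3 : 0 ≤ Real.log (n : ℝ) := Real.log_nonneg (by exact_mod_cast hp.one_lt.le)
      nlinarith
    · have h1 := Tp_lb (2 * Real.pi * (a / n)) (2 * Real.pi * (m / n))
      nlinarith
  have hth1 := hth (2 * k) (by omega)
  have hth2 := hth k hk2
  have hpt := hC₂ ((2 * k : ℕ) : ℝ)
  have hpt2 := Chebyshev.theta_le_psi (k : ℝ)
  have hlog2k : Real.log k ≤ Real.log ((2 * k : ℕ) : ℝ) := Real.log_le_log hk0 (by push_cast; linarith)
  have e1 : C * (((2 * k : ℕ) : ℝ) / Real.log ((2 * k : ℕ) : ℝ) ^ 1) ≤ k / 8 := by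
    rw [pow_one]
    calc C * (((2 * k : ℕ) : ℝ) / Real.log ((2 * k : ℕ) : ℝ)) ≤ C * (((2 * k : ℕ) : ℝ) / Real.log k) := by
          gcongr
      _ = (C * 16 / Real.log k) * (k / 8) := by push_cast; ring
      _ ≤ 1 * (k / 8) := by
          apply mul_le_mul_of_nonneg_right _ (by positivity)
          rw [div_le_one (by linarith)]; linarith
      _ = _ := one_mul _
  have e2 : C * ((k : ℝ) / Real.log (k : ℝ) ^ 1) ≤ k / 16 := by
    rw [pow_one]
    calc C * ((k : ℝ) / Real.log k) = (C * 16 / Real.log k) * (k / 16) := by ring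
      _ ≤ 1 * (k / 16) := by
          apply mul_le_mul_of_nonneg_right _ (by positivity)
          rw [div_le_one (by linarith)]; linarith
      _ = _ := one_mul _
  have e3 : C₂ * Real.sqrt ((2 * k : ℕ) : ℝ) ≤ k / 64 := by
    have h1 : Real.sqrt ((2 * k : ℕ) : ℝ) ≤ 2 * Real.sqrt k := by
      rw [Real.sqrt_le_left (by positivity), mul_pow, Real.sq_sqrt hk0.le]
      push_cast; linarith
    calc C₂ * Real.sqrt ((2 * k : ℕ) : ℝ) ≤ |C₂| * Real.sqrt ((2 * k : ℕ) : ℝ) := by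
          gcongr; exact le_abs_self _
      _ ≤ |C₂| * (2 * Real.sqrt k) := by gcongr
      _ = (128 * |C₂|) * Real.sqrt k / 64 := by ring
      _ ≤ Real.sqrt k * Real.sqrt k / 64 := by gcongr
      _ = k / 64 := by rw [Real.mul_self_sqrt hk0.le]
  have a1 := (abs_le.1 hth1).1
  have a2 := (abs_le.1 hth2).2
  push_cast at a1 hpt e1 e3 hlower hth1
  linarith

end Pool.Agent.Helper59K9.St
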